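import Pool.Agent.H633R2.Fpt

/-!
# Unary numbers computed in fpt time
-/

namespace Pool.Agent.H633R2

open Turing Pool.Agent.NPC

/-- Bounded iteration of a polynomial-time step in fpt time. -/
theorem FC.iterate {α β : Type} {ea : α → List Bool} {κ : α → ℕ} {tb : β → T} {n : α → T}
    {x : α → β} {f : β → β}
    (hn : FC ea T.enc κ n) (hx : FC ea (fun b => (tb b).enc) κ x)
    (hf : PC (fun b => (tb b).enc) (fun b => (tb b).enc) f)
    {H : ℕ → ℕ} (hH : Computable H) (hH1 : ∀ n, 1 ≤ H n) (q : Polynomial ℕ)
    (hq : ∀ a, ∀ k ≤ (n a).size, (tb (f^[k] (x a))).size ≤ H (κ a) * q.eval (ea a).length) :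
    FC ea (fun b => (tb b).enc) κ (fun a => f^[(n a).size] (x a)) := by
  have hx' : FC ea T.enc κ (fun a => tb (x a)) := hx
  obtain ⟨U, u', hU, hU1, hu'⟩ := hn.length_le
  obtain ⟨d, h, r, hh, hd⟩ := hn.node hx'
  obtain ⟨c, p, hf⟩ := hf
  refine ⟨Cmd.seq d (Cmd.seq split (Cmd.loop 1 (Cmd.seq (Cmd.pop 1) (ev c)))),
    fun n => h n + 5 * U n + H n ^ p.natDegree * U n + 4,
    r + u' + (p.comp q + Polynomial.C 2) * u' + Polynomial.C 1,
    add_computable (add_computable (add_computable hh (mul_computable (Computable.const 5) hU))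
      (mul_computable (pow_computable hH _) hU)) (Computable.const 4), fun a => ?_⟩
  have h1 := hd a
  rw [inp_eq_st, inp_eq_st] at h1
  rw [inp_eq_st, inp_eq_st]
  have h2 := split_runs (n a) (tb (x a))
  have h3 := loop_runs hf (H (κ a) * q.eval (ea a).length) (n a).enc.reverse (x a) (by
    intro k hk
    exact hq a k (by simpa [T.size] using hk))
  refine (h1.seq (h2.seq h3)).conv rfl ?_ ?_
  · simp [T.size]
  · have e1 := hu' a
    have e0 := hU1 (κ a)
    have e3 := eval_mul_le p (y := q.eval (ea a).length) (hH1 (κ a))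
    have e4 : 1 ≤ H (κ a) ^ p.natDegree := Nat.one_le_pow _ _ (hH1 _)
    have e2 : (n a).size = (n a).enc.length := rfl
    simp only [List.length_reverse, Polynomial.eval_add, Polynomial.eval_mul, Polynomial.eval_C,
      Polynomial.eval_comp, e2]
    generalize H (κ a) ^ p.natDegree = E at *
    generalize Polynomial.eval (H (κ a) * Polynomial.eval (ea a).length q) p = P at *
    generalize Polynomial.eval (Polynomial.eval (ea a).length q) p = P' at *
    generalize U (κ a) = u at *
    generalize Polynomial.eval (ea a).length u' = v at *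
    generalize Polynomial.eval (ea a).length r = w at *
    generalize h (κ a) = g at *
    generalize (n a).enc.length = m at *
    have f1 : (P + 2) * m ≤ (E * P' + 2 * E) * (u * v) :=
      Nat.mul_le_mul (by omega) e1
    have f2 : (E * P' + 2 * E) * (u * v) = (E * u) * ((P' + 2) * v) := by ring
    have f3 : (g + 5 * u + E * u + 4) * (w + v + (P' + 2) * v + 1) =
      g * w + 5 * (u * v) + (E * u) * ((P' + 2) * v) + 4 +
        (g * (v + (P' + 2) * v + 1) + 5 * u * (w + (P' + 2) * v + 1) + E * u * (w + v + 1) +
          4 * (w + v + (P' + 2) * v)) := by ring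
    rw [f3]
    have f4 : 0 ≤ g * (v + (P' + 2) * v + 1) + 5 * u * (w + (P' + 2) * v + 1) +
      E * u * (w + v + 1) + 4 * (w + v + (P' + 2) * v) := Nat.zero_le _
    have f5 : g * w ≤ g * w := le_rfl
    omega

end Pool.Agent.H633R2

namespace Pool.Agent.NPC.H633

open Pool.Agent.H633R2

section

variable {α β γ σ : Type} [TEnc α] [TEnc β] [TEnc γ] [TEnc σ] {κ : α → ℕ}

/-- Left folds of a polynomial-time step in fpt time. -/
theorem fptFoldl {c : α → γ} {l : α → List β} {s : α → σ} {F : γ → σ → β → σ}
    (hc : FptTime κ c) (hl : FptTime κ l) (hs : FptTime κ s)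
    (hF : Poly (fun p : γ × σ × β => F p.1 p.2.1 p.2.2))
    {H : ℕ → ℕ} (hH : Computable H) (q : Polynomial ℕ)
    (hq : ∀ a, ∀ k ≤ (l a).length,
      sz (((l a).take k).foldl (F (c a)) (s a)) ≤ H (κ a) * q.eval (sz a)) :
    FptTime κ (fun a => (l a).foldl (F (c a)) (s a)) := by
  have hstep : Poly (Poly.foldStep F) := by
    have h1 : Poly (fun p : (γ × List β × σ) × β × List β =>
        ((p.1.1, p.2.2, F p.1.1 p.1.2.2 p.2.1) : γ × List β × σ)) := by
      refine Poly.pair (Poly.fst (Poly.fst Poly.id)) (Poly.pair (Poly.snd (Poly.snd Poly.id)) ?_)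
      exact hF.comp (Poly.pair (Poly.fst (Poly.fst Poly.id))
        (Poly.pair (Poly.snd (Poly.snd (Poly.fst Poly.id))) (Poly.fst (Poly.snd Poly.id))))
    refine (Poly.listCases (l := fun x : γ × List β × σ => x.2.1)
      (g := fun x => x) (h := fun x b t => (x.1, t, F x.1 x.2.2 b))
      (Poly.fst (Poly.snd Poly.id)) Poly.id h1).congr ?_
    rintro ⟨a, l, s⟩
    cases l <;> rfl
  obtain ⟨Hc, qc, hHc, hHc1, hqc⟩ := ((fptTime_iff _ _).1 hc).length_le
  obtain ⟨Hl, ql, hHl, hHl1, hql⟩ := ((fptTime_iff _ _).1 hl).length_le
  have h0 : FC bits T.enc κ (fun a => toT (l a)) := (fptTime_iff _ _).1 hl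
  have h1 : FC bits (fun b : γ × List β × σ => (toT b).enc) κ (fun a => (c a, l a, s a)) :=
    (fptTime_iff _ _).1 (hc.pair (hl.pair hs))
  have h2 := FC.iterate (H := fun n => Hc n + Hl n + H n + 2) h0 h1 hstep
    (add_computable (add_computable (add_computable hHc hHl) hH) (Computable.const 2))
    (fun n => by omega) (qc + ql + q + Polynomial.C 1) (by
      intro a k _
      rw [Poly.foldStep_iterate]
      change sz (c a, (l a).drop k, ((l a).take k).foldl (F (c a)) (s a)) ≤ _
      have e1 := Poly.sz_drop_le (l a) k
      have e2 : sz (c a) ≤ Hc (κ a) * qc.eval (sz a) := hqc a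
      have e2' : sz (l a) ≤ Hl (κ a) * ql.eval (sz a) := hql a
      have e3 : sz (((l a).take k).foldl (F (c a)) (s a)) ≤ H (κ a) * q.eval (sz a) := by
        by_cases hk : k ≤ (l a).length
        · exact hq a k hk
        · have := hq a _ le_rfl
          rw [List.take_of_length_le (by omega)]
          rwa [List.take_length] at this
      simp only [sz_pair, Polynomial.eval_add, Polynomial.eval_C]
      change _ ≤ (Hc (κ a) + Hl (κ a) + H (κ a) + 2) *
        (qc.eval (sz a) + ql.eval (sz a) + q.eval (sz a) + 1)
      generalize Hc (κ a) = x1 at *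
      generalize Hl (κ a) = x2 at *
      generalize H (κ a) = x3 at *
      generalize qc.eval (sz a) = y1 at *
      generalize ql.eval (sz a) = y2 at *
      generalize q.eval (sz a) = y3 at *
      have f3 : (x1 + x2 + x3 + 2) * (y1 + y2 + y3 + 1) = x1 * y1 + x2 * y2 + x3 * y3 + 2 +
        (x1 * (y2 + y3 + 1) + x2 * (y1 + y3 + 1) + x3 * (y1 + y2 + 1) +
          2 * (y1 + y2 + y3)) := by ring
      rw [f3]
      have f4 : 0 ≤ x1 * (y2 + y3 + 1) + x2 * (y1 + y3 + 1) + x3 * (y1 + y2 + 1) +
          2 * (y1 + y2 + y3) := Nat.zero_le _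
      omega)
  have h3 : FptTime κ (fun a => (Poly.foldStep F)^[(toT (l a)).size] (c a, l a, s a)) :=
    (fptTime_iff _ _).2 h2
  have h4 : FptTime κ (fun a => ((Poly.foldStep F)^[(toT (l a)).size] (c a, l a, s a)).2.2) :=
    FptTime.poly_comp (g := fun x : γ × List β × σ => x.2.2) (Poly.snd (Poly.snd Poly.id)) h3
  have h5 : (fun a => ((Poly.foldStep F)^[(toT (l a)).size] (c a, l a, s a)).2.2) =
      fun a => (l a).foldl (F (c a)) (s a) := by
    funext a
    rw [Poly.foldStep_iterate]
    have : (l a).length < (toT (l a)).size := length_lt_sz (l a)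
    rw [List.take_of_length_le (by omega)]
  rwa [h5] at h4

end

/-- Functions whose values can be computed in unary in fpt time. -/
def UF (F : ℕ → ℕ) : Prop :=
  Computable F ∧ FptTime (fun n : ℕ => n) (fun n => List.replicate (F n) ())

theorem UF.const (c : ℕ) : UF (fun _ => c) :=
  ⟨Computable.const c, FptTime.of_poly (Poly.const _)⟩

theorem UF.add {F G : ℕ → ℕ} (hF : UF F) (hG : UF G) : UF (fun n => F n + G n) := by
  refine ⟨add_computable hF.1 hG.1, ?_⟩
  have h1 := FptTime.poly_comp (g := fun x : List Unit × List Unit => x.1 ++ x.2)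
    (Poly.append (Poly.fst Poly.id) (Poly.snd Poly.id)) (hF.2.pair hG.2)
  have h2 : (fun a => List.replicate (F a) () ++ List.replicate (G a) ()) =
      fun n => List.replicate (F n + G n) () := by
    funext a
    rw [List.replicate_append_replicate]
  exact h2 ▸ h1

theorem UF.mul {F G : ℕ → ℕ} (hF : UF F) (hG : UF G) : UF (fun n => F n * G n) := by
  refine ⟨mul_computable hF.1 hG.1, ?_⟩
  have h1 := FptTime.poly_comp (g := fun x : List Unit × List Unit => x.1.flatMap (fun _ => x.2))
    (Poly.flatMap (F := fun a _ => a.2) (Poly.fst Poly.id)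
      (Poly.snd (Poly.fst Poly.id))) (hF.2.pair hG.2)
  have h2 : (fun a => (List.replicate (F a) ()).flatMap (fun _ => List.replicate (G a) ())) =
      fun n => List.replicate (F n * G n) () := by
    funext a
    rw [List.eq_replicate_iff]
    refine ⟨?_, fun _ _ => rfl⟩
    simp [List.length_flatMap]
  exact h2 ▸ h1

theorem sz_replicate_unit (n : ℕ) : sz (List.replicate n ()) = 2 * n + 1 := by
  induction n with
  | zero => simp
  | succ n ih =>
    rw [List.replicate_succ]
    simp only [sz_list_cons, ih]
    have : sz () = 1 := rfl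
    omega

theorem fold_double (l : List Bool) :
    l.reverse.foldl (fun (acc : List Unit) (b : Bool) => acc ++ acc ++ bif b then [()] else [])
      [] = List.replicate (valB l) () := by
  induction l with
  | nil => rfl
  | cons b l ih =>
    rw [List.reverse_cons, List.foldl_append, ih]
    cases b
    · simp [two_mul]
    · simp only [List.foldl_cons, List.foldl_nil, List.replicate_append_replicate, valB_cons,
        if_true, cond_true]
      rw [show [()] = List.replicate 1 () from rfl, List.replicate_append_replicate]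
      congr 1
      omega

theorem valB_drop_le (l : List Bool) (j : ℕ) : valB (l.drop j) ≤ valB l := by
  induction l generalizing j with
  | nil => simp
  | cons b l ih =>
    cases j with
    | zero => simp
    | succ j => have := ih j; simp; omega

theorem UF.id : UF (fun n => n) := by
  refine ⟨Computable.id, ?_⟩
  have h := fptFoldl (α := ℕ) (κ := fun n => n) (c := fun _ => ()) (l := fun n => n.bits.reverse)
    (s := fun _ => ([] : List Unit))
    (F := fun _ acc b => acc ++ acc ++ bif b then [()] else [])
    (FptTime.of_poly (Poly.const ())) (FptTime.of_poly (Poly.reverse (Poly.natBits Poly.id)))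
    (FptTime.of_poly (Poly.const _))
    (Poly.append (Poly.append (Poly.fst (Poly.snd Poly.id)) (Poly.fst (Poly.snd Poly.id)))
      (Poly.cond (Poly.snd (Poly.snd Poly.id)) (Poly.const _) (Poly.const _)))
    (H := fun n => 2 * n + 1)
    (add_computable (mul_computable (Computable.const 2) Computable.id) (Computable.const 1)) 1
    (by
      intro n k _
      rw [List.take_reverse, fold_double, sz_replicate_unit]
      have h1 := valB_drop_le n.bits (n.bits.length - k)
      rw [valB_bits] at h1
      simp only [Polynomial.eval_one]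
      omega)
  have e : (fun n : ℕ => (n.bits.reverse).foldl
      (fun (acc : List Unit) (b : Bool) => acc ++ acc ++ bif b then [()] else []) []) =
      fun n => List.replicate n () := by
    funext n
    rw [fold_double, valB_bits]
  exact e ▸ h

theorem fold_exp (n : ℕ) (l : List Unit) :
    l.foldl (fun (acc : List Unit) (_ : Unit) => acc ++ acc) (List.replicate n ()) =
      List.replicate (2 ^ l.length * n) () := by
  induction l generalizing n with
  | nil => simp
  | cons b l ih =>
    rw [List.foldl_cons, List.replicate_append_replicate, ih, List.length_cons]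
    congr 1
    ring

theorem two_pow_computable {F : ℕ → ℕ} (hF : Computable F) : Computable (fun n => 2 ^ F n) := by
  have h : Computable (fun n : ℕ => 2 ^ n) := by
    have h1 : Computable₂ (fun (_ : ℕ) (p : ℕ × ℕ) => p.2 + p.2) := by
      have e1 : Computable (fun q : ℕ × (ℕ × ℕ) => q.2.2) := Computable.snd.comp Computable.snd
      exact (Primrec.nat_add.to_comp).comp e1 e1
    refine (Computable.nat_rec Computable.id (Computable.const 1) h1).of_eq fun n => ?_
    induction n with
    | zero => rfl
    | succ n ih =>
      simp only [_root_.id] at ih ⊢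
      rw [ih, pow_succ]
      omega
  exact h.comp hF

theorem UF.two_pow {G : ℕ → ℕ} (hG : UF G) : UF (fun n => 2 ^ G n) := by
  refine ⟨two_pow_computable hG.1, ?_⟩
  have h := fptFoldl (α := ℕ) (κ := fun n => n) (c := fun _ => ())
    (l := fun n => List.replicate (G n) ()) (s := fun _ => [()])
    (F := fun _ acc _ => acc ++ acc)
    (FptTime.of_poly (Poly.const ())) hG.2
    (FptTime.of_poly (Poly.const _))
    (Poly.append (Poly.fst (Poly.snd Poly.id)) (Poly.fst (Poly.snd Poly.id)))
    (H := fun n => 2 * 2 ^ G n + 1)
    (add_computable (mul_computable (Computable.const 2) (two_pow_computable hG.1))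
      (Computable.const 1)) 1
    (by
      intro n k hk
      rw [List.length_replicate] at hk
      have h1 := fold_exp 1 ((List.replicate (G n) ()).take k)
      rw [show List.replicate 1 () = [()] from rfl] at h1
      rw [h1, sz_replicate_unit, List.length_take, List.length_replicate]
      have h2 : 2 ^ min k (G n) ≤ 2 ^ G n := Nat.pow_le_pow_right (by omega) (Nat.min_le_right _ _)
      simp only [Polynomial.eval_one]
      omega)
  have e : (fun n : ℕ => (List.replicate (G n) ()).foldl
      (fun (acc : List Unit) (_ : Unit) => acc ++ acc) [()]) =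
      fun n => List.replicate (2 ^ G n) () := by
    funext n
    have h1 := fold_exp 1 (List.replicate (G n) ())
    rw [show List.replicate 1 () = [()] from rfl] at h1
    rw [h1, List.length_replicate, mul_one]
  exact e ▸ h

/-- Padding. -/
theorem UF.pad {α : Type} [TEnc α] {κ : α → ℕ} {F : ℕ → ℕ} (hF : UF F) (hκ : Poly κ) :
    FptTime κ (fun a => List.replicate (F (κ a)) ()) :=
  FptTime.comp (κ' := fun n : ℕ => n) hF.2 (FptTime.of_poly hκ) Computable.id fun _ => le_rfl

end Pool.Agent.NPC.H633
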