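import Pool.Agent.H633R2.FptDefs

/-!
# Edge contraction problems and the class W[2]
-/

namespace Pool.Agent.H633R2

open Pool.Agent.NPC

/-- The graph `G / F` obtained from `G` by contracting the edges in `F`: its vertices are the
connected components of the graph `(V, F)`, and two distinct components are adjacent iff some
edge of `G` joins a vertex of one to a vertex of the other. -/
def contract {V : Type} (G : SimpleGraph V) (F : Set (Sym2 V)) :
    SimpleGraph (SimpleGraph.fromEdgeSet F).ConnectedComponent where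
  Adj C D := C ≠ D ∧ ∃ u v, (SimpleGraph.fromEdgeSet F).connectedComponentMk u = C ∧
    (SimpleGraph.fromEdgeSet F).connectedComponentMk v = D ∧ G.Adj u v
  symm := ⟨fun _ _ ⟨h, u, v, hu, hv, huv⟩ => ⟨h.symm, v, u, hv, hu, huv.symm⟩⟩
  loopless := ⟨fun _ h => h.1 rfl⟩

/-- `G` is `H`-free: no induced subgraph of `G` is isomorphic to `H`. -/
def Free {W V : Type} (H : SimpleGraph W) (G : SimpleGraph V) : Prop := IsEmpty (H ↪g G)

/-- `H`-Free Contraction: instances `(G, k)`; can `G` be turned into an `H`-free graph by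
contracting at most `k` edges? -/
def FreeContraction {W : Type} (H : SimpleGraph W) (x : List (List Bool) × ℕ) : Prop :=
  ∃ F : Finset (Sym2 (Fin x.1.length)), (F : Set (Sym2 (Fin x.1.length))) ⊆
    (graphOf x.1).edgeSet ∧ F.card ≤ x.2 ∧ Free H (contract (graphOf x.1) F)

/-- `{H₁, H₂}`-Free Contraction: instances `(G, k)`; can `G` be turned into a graph which is both
`H₁`-free and `H₂`-free by contracting at most `k` edges? -/
def FreeContraction₂ {W₁ W₂ : Type} (H₁ : SimpleGraph W₁) (H₂ : SimpleGraph W₂)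
    (x : List (List Bool) × ℕ) : Prop :=
  ∃ F : Finset (Sym2 (Fin x.1.length)), (F : Set (Sym2 (Fin x.1.length))) ⊆
    (graphOf x.1).edgeSet ∧ F.card ≤ x.2 ∧ Free H₁ (contract (graphOf x.1) F) ∧
      Free H₂ (contract (graphOf x.1) F)

/-- The star `K_{1,6}` with centre `0`. -/
def star6 : SimpleGraph (Fin 7) where
  Adj i j := i ≠ j ∧ (i = 0 ∨ j = 0)
  symm := ⟨fun _ _ h => ⟨h.1.symm, h.2.symm⟩⟩
  loopless := ⟨fun _ h => h.1 rfl⟩

/-- The graph `K_3 + K_1`: a triangle on `1, 2, 3` and the isolated vertex `0`. -/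
def triPt : SimpleGraph (Fin 4) where
  Adj i j := i ≠ j ∧ i ≠ 0 ∧ j ≠ 0
  symm := ⟨fun _ _ h => ⟨h.1.symm, h.2.2, h.2.1⟩⟩
  loopless := ⟨fun _ h => h.1 rfl⟩

/-- Dominating Set: instances `(G, k)`; is there a set `S` of at most `k` vertices of `G` such that
every vertex of `G` lies in `S` or has a neighbour in `S`? -/
def HasDomSet (x : List (List Bool) × ℕ) : Prop :=
  ∃ S : Finset (Fin x.1.length), S.card ≤ x.2 ∧ ∀ w, ∃ v ∈ S, v = w ∨ (graphOf x.1).Adj v w

/-- The class W[2]: the parameterized problems that are fpt-reducible to the parameterized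
dominating set problem (instances `(G, k)`, parameter `k`). -/
def InW2 {α : Type} [TEnc α] (κ : α → ℕ) (P : α → Prop) : Prop :=
  FptReduces κ P (fun x : List (List Bool) × ℕ => x.2) HasDomSet

/-- Hardness for the class W[2] under fpt-reductions. -/
def W2Hard {β : Type} [TEnc β] (κ' : β → ℕ) (Q : β → Prop) : Prop :=
  ∀ (α : Type) [TEnc α] (κ : α → ℕ) (P : α → Prop), InW2 κ P → FptReduces κ P κ' Q

end Pool.Agent.H633R2
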