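import Pool.Agent.H633R2.DkSGraph

/-!
# Bounds on the number of edges kept
-/

namespace Pool.Agent.H633R2

section

variable {k t : ℕ} {D : Vr → ℕ → Bool}

theorem msz_eq (u : Vr) : (msz k t D u : ℤ) = ∑ x ∈ Finset.range t, ((W k t D u x : ℤ) + 1) := by
  unfold msz
  rw [← sum_range_list]
  push_cast
  congr 1
  rw [List.map_map]
  apply List.map_congr_left
  intro x _
  simp

theorem rho_eq {u : Vr} : (rho k t D u : ℤ) = lam k t D -
    ∑ v ∈ (us k).toFinset, (if shr u v = true then (msz k t D v : ℤ) else 0) := by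
  have h1 : (((us k).filter (shr u)).map (msz k t D)).sum ≤ ((us k).map (msz k t D)).sum := by
    induction us k with
    | nil => simp
    | cons a l ih =>
      rw [List.filter_cons]
      split_ifs <;> simp <;> omega
  have h2 : ((((us k).filter (shr u)).map (msz k t D)).sum : ℤ) =
      ∑ v ∈ (us k).toFinset, (if shr u v = true then (msz k t D v : ℤ) else 0) := by
    rw [← sum_us]
    induction us k with
    | nil => simp
    | cons a l ih =>
      rw [List.filter_cons]
      split_ifs with h
      · simp [h, ih]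
      · simp [h, ih]
  unfold rho
  rw [← h2, Nat.cast_sub]
  unfold lam
  omega

theorem msz_le_lam {u : Vr} (hu : u ∈ us k) : msz k t D u ≤ lam k t D := by
  have : msz k t D u ≤ ((us k).map (msz k t D)).sum :=
    List.single_le_sum (fun _ _ => Nat.zero_le _) _ (List.mem_map_of_mem hu)
  unfold lam
  omega

/-- Number of deleted vertices in the star module. -/
def xd (k t : ℕ) (D : Vr → ℕ → Bool) (s : Ds → ℤ) (u : Vr) : ℤ := S0 k t D (fun _ => 1) u - S0 k t D s u
/-- Number of deleted vertices in the pendant module. -/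
def rd (k t : ℕ) (D : Vr → ℕ → Bool) (s : Ds → ℤ) (u : Vr) : ℤ := S1 k t D (fun _ => 1) u - S1 k t D s u
/-- Number of deleted vertices in a filler star. -/
def fd (k t : ℕ) (D : Vr → ℕ → Bool) (s : Ds → ℤ) (i : ℕ) : ℤ :=
  ∑ l ∈ Finset.range (lam k t D + 1), (1 - s (2, (0, 0, 0), i, l))

theorem S0_one (u : Vr) : S0 k t D (fun _ => 1) u = msz k t D u := by
  rw [msz_eq]
  unfold S0
  simp

theorem S1_one (u : Vr) : S1 k t D (fun _ => 1) u = rho k t D u := by
  unfold S1
  simp

theorem tot_sub (f g : Ds → ℤ) : tot k t D (fun v => f v - g v) = tot k t D f - tot k t D g := by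
  unfold tot
  simp only [Finset.sum_sub_distrib]
  ring

theorem del_eq (s : Ds → ℤ) : tot k t D (fun _ => 1) - tot k t D s =
    ∑ u ∈ (us k).toFinset, xd k t D s u + ∑ u ∈ (us k).toFinset, rd k t D s u +
      ∑ i ∈ Finset.range (qq k t), fd k t D s i := by
  unfold tot xd rd fd S0 S1
  simp only [Finset.sum_sub_distrib]
  ring

/-- The star part. -/
def stp (k t : ℕ) (D : Vr → ℕ → Bool) (s : Ds → ℤ) (u : Vr) (x : ℕ) : ℤ :=
  W k t D u x - s (0, u, x, 0) * ∑ l ∈ Finset.range (W k t D u x), s (0, u, x, l + 1)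

/-- The filler part. -/
def flp (k t : ℕ) (D : Vr → ℕ → Bool) (s : Ds → ℤ) (i : ℕ) : ℤ :=
  lam k t D - s (2, (0, 0, 0), i, 0) * ∑ l ∈ Finset.range (lam k t D), s (2, (0, 0, 0), i, l + 1)

theorem e2_diff (s : Ds → ℤ) : e2 k t D (fun _ => 1) - e2 k t D s =
    2 * lam k t D * ∑ u ∈ (us k).toFinset, xd k t D s u +
    2 * ∑ u ∈ (us k).toFinset, rd k t D s u * (msz k t D u - xd k t D s u) -
    ∑ u ∈ (us k).toFinset, ∑ v ∈ (us k).toFinset,
      (if shr u v = true then xd k t D s u * xd k t D s v else 0) +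
    2 * ∑ u ∈ (us k).toFinset, ∑ x ∈ Finset.range t, stp k t D s u x +
    2 * ∑ i ∈ Finset.range (qq k t), flp k t D s i := by
  rw [e2_eq, e2_eq]
  have hS0 : ∀ u, S0 k t D s u = msz k t D u - xd k t D s u := by
    intro u; unfold xd; rw [S0_one]; ring
  have hS1 : ∀ u, S1 k t D s u = rho k t D u - rd k t D s u := by
    intro u; unfold rd; rw [S1_one]; ring
  simp only [S0_one, S1_one]
  have c1 : ∑ u ∈ (us k).toFinset, ∑ v ∈ (us k).toFinset, (if shr u v = true then
      (msz k t D u : ℤ) * msz k t D v else 0) - ∑ u ∈ (us k).toFinset, ∑ v ∈ (us k).toFinset,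
        (if shr u v = true then S0 k t D s u * S0 k t D s v else 0) =
      2 * ∑ u ∈ (us k).toFinset, xd k t D s u * (∑ v ∈ (us k).toFinset,
        (if shr u v = true then (msz k t D v : ℤ) else 0)) -
      ∑ u ∈ (us k).toFinset, ∑ v ∈ (us k).toFinset,
      (if shr u v = true then xd k t D s u * xd k t D s v else 0) := by
    have c2 : ∑ u ∈ (us k).toFinset, ∑ v ∈ (us k).toFinset,
        (if shr u v = true then (msz k t D u : ℤ) * xd k t D s v else 0) =
        ∑ u ∈ (us k).toFinset, xd k t D s u * (∑ v ∈ (us k).toFinset,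
        (if shr u v = true then (msz k t D v : ℤ) else 0)) := by
      rw [Finset.sum_comm]
      refine Finset.sum_congr rfl fun u _ => ?_
      rw [Finset.mul_sum]
      refine Finset.sum_congr rfl fun v _ => ?_
      rw [shr_comm]
      split_ifs
      · ring
      · simp
    have c3 : ∑ u ∈ (us k).toFinset, ∑ v ∈ (us k).toFinset,
        (if shr u v = true then xd k t D s u * (msz k t D v : ℤ) else 0) =
        ∑ u ∈ (us k).toFinset, xd k t D s u * (∑ v ∈ (us k).toFinset,
        (if shr u v = true then (msz k t D v : ℤ) else 0)) := by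
      refine Finset.sum_congr rfl fun u _ => ?_
      rw [Finset.mul_sum]
      refine Finset.sum_congr rfl fun v _ => ?_
      split_ifs
      · ring
      · simp
    rw [two_mul, ← c2]
    nth_rewrite 2 [c2]
    rw [← c3, ← Finset.sum_add_distrib, ← Finset.sum_sub_distrib, ← Finset.sum_sub_distrib]
    refine Finset.sum_congr rfl fun u _ => ?_
    rw [← Finset.sum_add_distrib, ← Finset.sum_sub_distrib, ← Finset.sum_sub_distrib]
    refine Finset.sum_congr rfl fun v _ => ?_
    split_ifs
    · rw [hS0, hS0]; ring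
    · simp
  have c4 : ∑ u ∈ (us k).toFinset, xd k t D s u * (∑ v ∈ (us k).toFinset,
        (if shr u v = true then (msz k t D v : ℤ) else 0)) =
      lam k t D * ∑ u ∈ (us k).toFinset, xd k t D s u -
        ∑ u ∈ (us k).toFinset, xd k t D s u * rho k t D u := by
    rw [Finset.mul_sum, ← Finset.sum_sub_distrib]
    refine Finset.sum_congr rfl fun u _ => ?_
    rw [rho_eq]
    ring
  have c5 : ∑ u ∈ (us k).toFinset, (msz k t D u : ℤ) * rho k t D u -
      ∑ u ∈ (us k).toFinset, S0 k t D s u * S1 k t D s u =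
      ∑ u ∈ (us k).toFinset, xd k t D s u * rho k t D u +
      ∑ u ∈ (us k).toFinset, rd k t D s u * (msz k t D u - xd k t D s u) := by
    rw [← Finset.sum_sub_distrib, ← Finset.sum_add_distrib]
    refine Finset.sum_congr rfl fun u _ => ?_
    rw [hS0, hS1]
    ring
  have c6 : ∑ u ∈ (us k).toFinset, ∑ x ∈ Finset.range t, stp k t D s u x =
      ∑ u ∈ (us k).toFinset, ∑ x ∈ Finset.range t,
        (1 : ℤ) * ∑ l ∈ Finset.range (W k t D u x), (1 : ℤ) -
      ∑ u ∈ (us k).toFinset, ∑ x ∈ Finset.range t,
      s (0, u, x, 0) * ∑ l ∈ Finset.range (W k t D u x), s (0, u, x, l + 1) := by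
    rw [← Finset.sum_sub_distrib]
    refine Finset.sum_congr rfl fun u _ => ?_
    rw [← Finset.sum_sub_distrib]
    refine Finset.sum_congr rfl fun x _ => ?_
    unfold stp
    simp
  have c7 : ∑ i ∈ Finset.range (qq k t), flp k t D s i =
      ∑ i ∈ Finset.range (qq k t), (1 : ℤ) * ∑ l ∈ Finset.range (lam k t D), (1 : ℤ) -
      ∑ i ∈ Finset.range (qq k t),
      s (2, (0, 0, 0), i, 0) * ∑ l ∈ Finset.range (lam k t D), s (2, (0, 0, 0), i, l + 1) := by
    rw [← Finset.sum_sub_distrib]
    refine Finset.sum_congr rfl fun i _ => ?_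
    unfold flp
    simp
  rw [c6, c7]
  linear_combination c1 + 2 * c4 + 2 * c5

open Classical in
/-- The touched stars. -/
noncomputable def Tc (k t : ℕ) (D : Vr → ℕ → Bool) (s : Ds → ℤ) (u : Vr) : Finset ℕ :=
  (Finset.range t).filter (fun x => ∃ l ∈ Finset.range (W k t D u x + 1), s (0, u, x, l) ≠ 1)

theorem mem_Tc {s : Ds → ℤ} {u : Vr} {x : ℕ} : x ∈ Tc k t D s u ↔ x ∈ Finset.range t ∧
    ∃ l ∈ Finset.range (W k t D u x + 1), s (0, u, x, l) ≠ 1 := by
  simp only [Tc, Finset.mem_filter]

theorem Tc_sub (s : Ds → ℤ) (u : Vr) : Tc k t D s u ⊆ Finset.range t :=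
  fun _ hx => (mem_Tc.1 hx).1

theorem Tc_card_le (s : Ds → ℤ) (u : Vr) : (Tc k t D s u).card ≤ t := by
  simpa using Finset.card_le_card (Tc_sub (k := k) (t := t) (D := D) s u)

theorem main_bound {s : Ds → ℤ} (hs : ∀ v, s v = 0 ∨ s v = 1) :
    e2 k t D (fun _ => 1) - e2 k t D s ≤
      2 * lam k t D * (tot k t D (fun _ => 1) - tot k t D s) +
      phi k t D (fun u => (Tc k t D s u).card) := by
  have hs0 : ∀ v, 0 ≤ s v := fun v => by rcases hs v with h | h <;> rw [h] <;> norm_num
  have hs1 : ∀ v, s v ≤ 1 := fun v => by rcases hs v with h | h <;> rw [h] <;> norm_num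
  have hxd : ∀ u, ((Tc k t D s u).card : ℤ) ≤ xd k t D s u := by
    intro u
    have : xd k t D s u = ∑ x ∈ Finset.range t, ∑ l ∈ Finset.range (W k t D u x + 1),
        (1 - s (0, u, x, l)) := by
      unfold xd S0
      simp only [Finset.sum_sub_distrib]
    rw [this]
    calc ((Tc k t D s u).card : ℤ) = ∑ x ∈ Tc k t D s u, (1 : ℤ) := by simp
      _ ≤ ∑ x ∈ Tc k t D s u, ∑ l ∈ Finset.range (W k t D u x + 1), (1 - s (0, u, x, l)) := by
        refine Finset.sum_le_sum fun x hx => ?_
        rw [mem_Tc] at hx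
        obtain ⟨_, l, hl, hsl⟩ := hx
        have h1 : 1 - s (0, u, x, l) = 1 := by
          rcases hs (0, u, x, l) with h | h
          · rw [h]; norm_num
          · exact absurd h hsl
        calc (1 : ℤ) = 1 - s (0, u, x, l) := h1.symm
          _ ≤ _ := Finset.single_le_sum (f := fun l => 1 - s (0, u, x, l))
            (fun l _ => by have := hs1 (0, u, x, l); linarith) hl
      _ ≤ _ := by
        refine Finset.sum_le_sum_of_subset_of_nonneg (Tc_sub s u) ?_
        intro x _ _
        exact Finset.sum_nonneg fun l _ => by have := hs1 (0, u, x, l); linarith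
  have hrd : ∀ u, 0 ≤ rd k t D s u := by
    intro u
    have : rd k t D s u = ∑ r ∈ Finset.range (rho k t D u), (1 - s (1, u, r, 0)) := by
      unfold rd S1
      simp only [Finset.sum_sub_distrib]
    rw [this]
    exact Finset.sum_nonneg fun l _ => by have := hs1 (1, u, l, 0); linarith
  have hxd0 : ∀ u, 0 ≤ xd k t D s u := fun u => le_trans (by positivity) (hxd u)
  have hstp : ∀ u, ∑ x ∈ Finset.range t, stp k t D s u x ≤
      dg k u * ∑ i ∈ Finset.range (Tc k t D s u).card, (wt t (D u) i : ℤ) := by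
    intro u
    have h1 : ∑ x ∈ Finset.range t, stp k t D s u x ≤ ∑ x ∈ Tc k t D s u, (W k t D u x : ℤ) := by
      rw [← Finset.sum_subset (Tc_sub s u)]
      · refine Finset.sum_le_sum fun x _ => ?_
        unfold stp
        have : 0 ≤ s (0, u, x, 0) * ∑ l ∈ Finset.range (W k t D u x), s (0, u, x, l + 1) :=
          mul_nonneg (hs0 _) (Finset.sum_nonneg fun l _ => hs0 _)
        linarith
      · intro x hx hxT
        rw [mem_Tc] at hxT
        push Not at hxT
        have h2 := hxT hx
        unfold stp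
        rw [h2 0 (by simp)]
        have : ∑ l ∈ Finset.range (W k t D u x), s (0, u, x, l + 1) = W k t D u x := by
          rw [Finset.sum_congr rfl (fun l hl => h2 (l + 1) (by simpa using hl))]
          simp
        rw [this]
        ring
    refine h1.trans ?_
    have h3 := sum_le_range (f := fun x => W k t D u x)
      (fun x y hxy => Nat.mul_le_mul_left _ (wt_anti t (D u) hxy)) (Tc k t D s u)
    have h4 : (∑ x ∈ Tc k t D s u, (W k t D u x : ℤ)) ≤
        ∑ x ∈ Finset.range (Tc k t D s u).card, (W k t D u x : ℤ) := by exact_mod_cast h3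
    refine h4.trans (le_of_eq ?_)
    rw [Finset.mul_sum]
    refine Finset.sum_congr rfl fun i _ => ?_
    unfold W
    push_cast
    rfl
  have hflp : ∀ i, flp k t D s i ≤ lam k t D * fd k t D s i := by
    intro i
    by_cases h : ∀ l ∈ Finset.range (lam k t D + 1), s (2, (0, 0, 0), i, l) = 1
    · have e1 : fd k t D s i = 0 := by
        unfold fd
        exact Finset.sum_eq_zero fun l hl => by rw [h l hl]; ring
      rw [e1]
      unfold flp
      rw [h 0 (by simp)]
      have : ∑ l ∈ Finset.range (lam k t D), s (2, (0, 0, 0), i, l + 1) = lam k t D := by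
        rw [Finset.sum_congr rfl (fun l hl => h (l + 1) (by simpa using hl))]
        simp
      rw [this]
      simp
    · push Not at h
      obtain ⟨l, hl, hne⟩ := h
      have h1 : 1 - s (2, (0, 0, 0), i, l) = 1 := by
        rcases hs (2, (0, 0, 0), i, l) with h | h
        · rw [h]; norm_num
        · exact absurd h hne
      have h2 : 1 ≤ fd k t D s i := by
        rw [← h1]
        exact Finset.single_le_sum (f := fun l => 1 - s (2, (0, 0, 0), i, l))
            (fun l _ => by have := hs1 (2, (0, 0, 0), i, l); linarith) hl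
      have h3 : flp k t D s i ≤ lam k t D := by
        unfold flp
        have : 0 ≤ s (2, (0, 0, 0), i, 0) *
            ∑ l ∈ Finset.range (lam k t D), s (2, (0, 0, 0), i, l + 1) :=
          mul_nonneg (hs0 _) (Finset.sum_nonneg fun l _ => hs0 _)
        linarith
      have h4 : (0 : ℤ) ≤ lam k t D := by positivity
      nlinarith
  rw [e2_diff, del_eq]
  unfold phi
  have g1 : ∑ u ∈ (us k).toFinset, rd k t D s u * (msz k t D u - xd k t D s u) ≤
      lam k t D * ∑ u ∈ (us k).toFinset, rd k t D s u := by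
    rw [Finset.mul_sum]
    refine Finset.sum_le_sum fun u hu => ?_
    have h1 : (msz k t D u : ℤ) ≤ lam k t D := by
      exact_mod_cast msz_le_lam (List.mem_toFinset.1 hu)
    have h2 := hxd0 u
    have h3 := hrd u
    nlinarith
  have g2 : ∑ u ∈ (us k).toFinset, ∑ v ∈ (us k).toFinset,
      (if shr u v = true then ((Tc k t D s u).card : ℤ) * (Tc k t D s v).card else 0) ≤
      ∑ u ∈ (us k).toFinset, ∑ v ∈ (us k).toFinset,
      (if shr u v = true then xd k t D s u * xd k t D s v else 0) := by
    refine Finset.sum_le_sum fun u _ => Finset.sum_le_sum fun v _ => ?_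
    split_ifs
    · exact mul_le_mul (hxd u) (hxd v) (by positivity) (hxd0 u)
    · exact le_rfl
  have g3 : ∑ u ∈ (us k).toFinset, ∑ x ∈ Finset.range t, stp k t D s u x ≤
      ∑ u ∈ (us k).toFinset, dg k u *
        ∑ i ∈ Finset.range (Tc k t D s u).card, (wt t (D u) i : ℤ) :=
    Finset.sum_le_sum fun u _ => hstp u
  have g4 : ∑ i ∈ Finset.range (qq k t), flp k t D s i ≤
      lam k t D * ∑ i ∈ Finset.range (qq k t), fd k t D s i := by
    rw [Finset.mul_sum]
    exact Finset.sum_le_sum fun i _ => hflp i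
  linarith

/-- The set of kept vertices given by a solution: delete the centres of the first `x u` stars of
every module and `m` filler centres. -/
def keep (x : Vr → ℕ) (m : ℕ) (v : Ds) : ℤ :=
  if (v.1 = 0 ∧ v.2.2.2 = 0 ∧ v.2.2.1 < x v.2.1) ∨ (v.1 = 2 ∧ v.2.2.2 = 0 ∧ v.2.2.1 < m) then 0
  else 1

theorem keep_zero_one (x : Vr → ℕ) (m : ℕ) (v : Ds) : keep x m v = 0 ∨ keep x m v = 1 := by
  unfold keep
  split_ifs <;> simp

theorem sum_lt_range {n m : ℕ} (h : m ≤ n) (f : ℕ → ℤ) :
    ∑ i ∈ Finset.range n, (if i < m then f i else 0) = ∑ i ∈ Finset.range m, f i := by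
  rw [← Finset.sum_filter]
  congr 1
  ext i
  simp
  omega

theorem keep_value {x : Vr → ℕ} {m : ℕ} (hx : ∀ u ∈ us k, x u ≤ t) (hm : m ≤ qq k t) :
    e2 k t D (fun _ => 1) - e2 k t D (keep x m) =
      2 * lam k t D * (tot k t D (fun _ => 1) - tot k t D (keep x m)) + phi k t D x ∧
    tot k t D (fun _ => 1) - tot k t D (keep x m) = ∑ u ∈ (us k).toFinset, (x u : ℤ) + m := by
  have hxd : ∀ u ∈ (us k).toFinset, xd k t D (keep x m) u = x u := by
    intro u hu
    have hxu := hx u (List.mem_toFinset.1 hu)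
    have h0 : xd k t D (keep x m) u = ∑ i ∈ Finset.range t, ∑ l ∈ Finset.range (W k t D u i + 1),
        (1 - keep x m (0, u, i, l)) := by
      unfold xd S0
      simp only [Finset.sum_sub_distrib]
    rw [h0]
    have h1 : ∀ i ∈ Finset.range t, ∑ l ∈ Finset.range (W k t D u i + 1),
        (1 - keep x m (0, u, i, l)) = if i < x u then 1 else 0 := by
      intro i _
      rw [Finset.sum_range_succ']
      have : ∀ l ∈ Finset.range (W k t D u i), 1 - keep x m (0, u, i, l + 1) = 0 := by
        intro l _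
        simp [keep]
      rw [Finset.sum_eq_zero this]
      by_cases h : i < x u <;> simp [keep, h]
    rw [Finset.sum_congr rfl h1, sum_lt_range hxu]
    simp
  have hrd : ∀ u ∈ (us k).toFinset, rd k t D (keep x m) u = 0 := by
    intro u _
    unfold rd S1
    rw [← Finset.sum_sub_distrib]
    exact Finset.sum_eq_zero fun r _ => by simp [keep]
  have hfd : ∀ i ∈ Finset.range (qq k t), fd k t D (keep x m) i = if i < m then 1 else 0 := by
    intro i _
    unfold fd
    rw [Finset.sum_range_succ']
    have : ∀ l ∈ Finset.range (lam k t D), 1 - keep x m (2, (0, 0, 0), i, l + 1) = 0 := by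
      intro l _
      simp [keep]
    rw [Finset.sum_eq_zero this]
    by_cases h : i < m <;> simp [keep, h]
  have hstp : ∀ u ∈ (us k).toFinset, ∑ i ∈ Finset.range t, stp k t D (keep x m) u i =
      dg k u * ∑ i ∈ Finset.range (x u), (wt t (D u) i : ℤ) := by
    intro u hu
    have hxu := hx u (List.mem_toFinset.1 hu)
    have h1 : ∀ i ∈ Finset.range t, stp k t D (keep x m) u i =
        if i < x u then (W k t D u i : ℤ) else 0 := by
      intro i _
      unfold stp
      have : ∀ l ∈ Finset.range (W k t D u i), keep x m (0, u, i, l + 1) = 1 := by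
        intro l _
        simp [keep]
      rw [Finset.sum_congr rfl this]
      by_cases h : i < x u <;> simp [keep, h]
    rw [Finset.sum_congr rfl h1, sum_lt_range hxu, Finset.mul_sum]
    refine Finset.sum_congr rfl fun i _ => ?_
    unfold W
    push_cast
    rfl
  have hflp : ∀ i ∈ Finset.range (qq k t), flp k t D (keep x m) i =
      if i < m then (lam k t D : ℤ) else 0 := by
    intro i _
    unfold flp
    have : ∀ l ∈ Finset.range (lam k t D), keep x m (2, (0, 0, 0), i, l + 1) = 1 := by
      intro l _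
      simp [keep]
    rw [Finset.sum_congr rfl this]
    by_cases h : i < m <;> simp [keep, h]
  have g1 : ∑ i ∈ Finset.range (qq k t), fd k t D (keep x m) i = m := by
    rw [Finset.sum_congr rfl hfd, sum_lt_range hm]
    simp
  have g2 : ∑ i ∈ Finset.range (qq k t), flp k t D (keep x m) i = lam k t D * m := by
    rw [Finset.sum_congr rfl hflp, sum_lt_range hm]
    simp [mul_comm]
  have hdel : tot k t D (fun _ => 1) - tot k t D (keep x m) =
      ∑ u ∈ (us k).toFinset, (x u : ℤ) + m := by
    rw [del_eq, g1, Finset.sum_congr rfl hxd, Finset.sum_congr rfl hrd]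
    simp
  refine ⟨?_, hdel⟩
  rw [hdel, e2_diff, g2, Finset.sum_congr rfl hstp, Finset.sum_congr rfl hxd]
  have g3 : ∑ u ∈ (us k).toFinset, rd k t D (keep x m) u * (msz k t D u - xd k t D (keep x m) u) =
      0 := Finset.sum_eq_zero fun u hu => by rw [hrd u hu]; ring
  have g4 : ∑ u ∈ (us k).toFinset, ∑ v ∈ (us k).toFinset,
      (if shr u v = true then xd k t D (keep x m) u * xd k t D (keep x m) v else 0) =
      ∑ u ∈ (us k).toFinset, ∑ v ∈ (us k).toFinset,
      (if shr u v = true then (x u : ℤ) * x v else 0) := by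
    refine Finset.sum_congr rfl fun u hu => Finset.sum_congr rfl fun v hv => ?_
    rw [hxd u hu, hxd v hv]
  rw [g3, g4]
  unfold phi
  ring

end

end Pool.Agent.H633R2
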