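import Pool.Agent.H633R2.DkSNum

/-!
# The graph of the reduction from Clique to Densest k-Subgraph / modular width
-/

namespace Pool.Agent.H633R2

/-- Vertex descriptors: kind (`0` star module, `1` pendant module, `2` filler), variable,
star index, position in the star (`0` is the centre). -/
abbrev Ds := ℕ × Vr × ℕ × ℕ

/-- Adjacency inside a star forest. -/
def inner (v w : Ds) : Bool :=
  decide (v.2.2.1 = w.2.2.1) && (decide (v.2.2.2 = 0) ^^ decide (w.2.2.2 = 0))

/-- Adjacency between modules (one orientation for the pendant modules). -/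
def outer (v w : Ds) : Bool :=
  (decide (v.1 = 0) && (decide (w.1 = 0) && shr v.2.1 w.2.1)) ||
    ((decide (v.1 = 0) && (decide (w.1 = 1) && decide (v.2.1 = w.2.1))) ||
      (decide (v.1 = 1) && (decide (w.1 = 0) && decide (v.2.1 = w.2.1))))

/-- Adjacency of descriptors in the sparse graph. -/
def gadj (v w : Ds) : Bool :=
  bif decide (v.1 = w.1 ∧ v.2.1 = w.2.1) then inner v w else outer v w

theorem gadj_comm (v w : Ds) : gadj v w = gadj w v := by
  unfold gadj inner outer
  rw [shr_comm v.2.1 w.2.1]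
  by_cases h : v.1 = w.1 ∧ v.2.1 = w.2.1
  · have h' : w.1 = v.1 ∧ w.2.1 = v.2.1 := ⟨h.1.symm, h.2.symm⟩
    rw [decide_eq_true h, decide_eq_true h', cond_true, cond_true, Bool.xor_comm]
    congr 1
    rw [decide_eq_decide]
    exact eq_comm
  · have h' : ¬ (w.1 = v.1 ∧ w.2.1 = v.2.1) := fun h' => h ⟨h'.1.symm, h'.2.symm⟩
    rw [decide_eq_false h, decide_eq_false h', cond_false, cond_false, Bool.eq_iff_iff]
    simp only [Bool.or_eq_true, Bool.and_eq_true, decide_eq_true_eq]
    constructor <;> rintro (⟨h1, h2, h3⟩ | ⟨h1, h2, h3⟩ | ⟨h1, h2, h3⟩) <;> simp_all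

section

variable (k t : ℕ) (D : Vr → ℕ → Bool)

/-- Star sizes. -/
def W (u : Vr) (x : ℕ) : ℕ := dg k u * wt t (D u) x

/-- Number of vertices of the star module of a variable. -/
def msz (u : Vr) : ℕ := ((List.range t).map (fun x => W k t D u x + 1)).sum

/-- The common outer degree. -/
def lam : ℕ := ((us k).map (msz k t D)).sum + 1

/-- Sizes of the pendant modules. -/
def rho (u : Vr) : ℕ := lam k t D - (((us k).filter (shr u)).map (msz k t D)).sum

/-- Number of vertices to be deleted. -/
def qq : ℕ := (us k).length * t + 1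

/-- The vertices. -/
def verts : List Ds :=
  (us k).flatMap (fun u => (List.range t).flatMap (fun x =>
    (List.range (W k t D u x + 1)).map (fun l => ((0, u, x, l) : Ds)))) ++
  ((us k).flatMap (fun u => (List.range (rho k t D u)).map (fun r => ((1, u, r, 0) : Ds))) ++
  (List.range (qq k t)).flatMap (fun i => (List.range (lam k t D + 1)).map
    (fun l => ((2, (0, 0, 0), i, l) : Ds))))

variable {k t D}

theorem mem_verts {v : Ds} : v ∈ verts k t D ↔
    (v.1 = 0 ∧ v.2.1 ∈ us k ∧ v.2.2.1 < t ∧ v.2.2.2 ≤ W k t D v.2.1 v.2.2.1) ∨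
    (v.1 = 1 ∧ v.2.1 ∈ us k ∧ v.2.2.1 < rho k t D v.2.1 ∧ v.2.2.2 = 0) ∨
    (v.1 = 2 ∧ v.2.1 = (0, 0, 0) ∧ v.2.2.1 < qq k t ∧ v.2.2.2 ≤ lam k t D) := by
  obtain ⟨c, u, x, l⟩ := v
  unfold verts
  simp only [List.mem_append, List.mem_flatMap, List.mem_range, List.mem_map]
  constructor
  · rintro (⟨u', hu', x', hx', l', hl', h⟩ | ⟨u', hu', r', hr', h⟩ | ⟨i', hi', l', hl', h⟩)
    · simp only [Prod.mk.injEq] at h
      obtain ⟨rfl, rfl, rfl, rfl⟩ := h
      exact Or.inl ⟨rfl, hu', hx', by omega⟩
    · simp only [Prod.mk.injEq] at h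
      obtain ⟨rfl, rfl, rfl, rfl⟩ := h
      exact Or.inr (Or.inl ⟨rfl, hu', hr', rfl⟩)
    · simp only [Prod.mk.injEq] at h
      obtain ⟨rfl, rfl, rfl, rfl⟩ := h
      exact Or.inr (Or.inr ⟨rfl, rfl, hi', by omega⟩)
  · rintro (⟨h1, h2, h3, h4⟩ | ⟨h1, h2, h3, h4⟩ | ⟨h1, h2, h3, h4⟩)
    · subst h1
      exact Or.inl ⟨u, h2, x, h3, l, by omega, rfl⟩
    · subst h1 h4
      exact Or.inr (Or.inl ⟨u, h2, x, h3, rfl⟩)
    · subst h1 h2
      exact Or.inr (Or.inr ⟨x, h3, l, by omega, rfl⟩)

theorem verts_nodup : (verts k t D).Nodup := by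
  unfold verts
  have hr : ∀ n, (List.range n).Nodup := fun n => List.nodup_range
  rw [List.nodup_append, List.nodup_append]
  refine ⟨?_, ⟨?_, ?_, ?_⟩, ?_⟩
  · rw [List.nodup_flatMap]
    refine ⟨fun u _ => ?_, ?_⟩
    · rw [List.nodup_flatMap]
      refine ⟨fun x _ => (hr _).map (fun a b h => by simpa using h), ?_⟩
      refine (hr _).imp ?_
      intro a b hab
      simp only [Function.onFun, List.Disjoint, List.mem_map]
      rintro v ⟨l, _, rfl⟩ ⟨l', _, h⟩
      simp only [Prod.mk.injEq] at h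
      omega
    · refine (us_nodup k).imp ?_
      intro a b hab
      simp only [Function.onFun, List.Disjoint, List.mem_flatMap, List.mem_map]
      rintro v ⟨x, _, l, _, rfl⟩ ⟨x', _, l', _, h⟩
      rw [Prod.mk.injEq, Prod.mk.injEq] at h
      exact hab h.2.1.symm
  · rw [List.nodup_flatMap]
    refine ⟨fun x _ => (hr _).map (fun a b h => by simpa using h), ?_⟩
    refine (us_nodup k).imp ?_
    intro a b hab
    simp only [Function.onFun, List.Disjoint, List.mem_map]
    rintro v ⟨x, _, rfl⟩ ⟨x', _, h⟩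
    rw [Prod.mk.injEq, Prod.mk.injEq] at h
    exact hab h.2.1.symm
  · rw [List.nodup_flatMap]
    refine ⟨fun x _ => (hr _).map (fun a b h => by simpa using h), ?_⟩
    refine (hr _).imp ?_
    intro a b hab
    simp only [Function.onFun, List.Disjoint, List.mem_map]
    rintro v ⟨x, _, rfl⟩ ⟨x', _, h⟩
    simp only [Prod.mk.injEq] at h
    omega
  · intro a ha b hb hab
    simp only [List.mem_flatMap, List.mem_map] at ha hb
    obtain ⟨_, _, _, _, rfl⟩ := ha
    obtain ⟨_, _, _, _, rfl⟩ := hb
    simp at hab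
  · intro a ha b hb hab
    simp only [List.mem_append, List.mem_flatMap, List.mem_map] at ha hb
    obtain ⟨_, _, _, _, _, _, rfl⟩ := ha
    rcases hb with ⟨_, _, _, _, rfl⟩ | ⟨_, _, _, _, rfl⟩ <;> simp at hab

/-- Sums over a list of variables as finset sums. -/
theorem sum_us (f : Vr → ℤ) : ((us k).map f).sum = ∑ u ∈ (us k).toFinset, f u :=
  (List.sum_toFinset f (us_nodup k)).symm

theorem sum_range_list (n : ℕ) (f : ℕ → ℤ) :
    ((List.range n).map f).sum = ∑ i ∈ Finset.range n, f i := by
  rw [← List.sum_toFinset f List.nodup_range, List.toFinset_range]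

theorem sum_flatMap' {α β : Type} (l : List α) (g : α → List β) (f : β → ℤ) :
    ((l.flatMap g).map f).sum = (l.map (fun a => ((g a).map f).sum)).sum := by
  induction l with
  | nil => simp
  | cons a l ih => simp [ih]

variable (k t D) in
/-- Sum over all descriptors. -/
def tot (f : Ds → ℤ) : ℤ :=
  ∑ u ∈ (us k).toFinset, ∑ x ∈ Finset.range t, ∑ l ∈ Finset.range (W k t D u x + 1), f (0, u, x, l) +
  (∑ u ∈ (us k).toFinset, ∑ r ∈ Finset.range (rho k t D u), f (1, u, r, 0) +
  ∑ i ∈ Finset.range (qq k t), ∑ l ∈ Finset.range (lam k t D + 1), f (2, (0, 0, 0), i, l))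

theorem sum_verts (f : Ds → ℤ) : ((verts k t D).map f).sum = tot k t D f := by
  unfold verts tot
  rw [List.map_append, List.sum_append, List.map_append, List.sum_append, sum_flatMap',
    sum_flatMap', sum_flatMap', sum_us, sum_us, sum_range_list]
  congr 1
  · refine Finset.sum_congr rfl fun u _ => ?_
    rw [sum_flatMap', sum_range_list]
    refine Finset.sum_congr rfl fun x _ => ?_
    rw [List.map_map, sum_range_list]
    rfl
  · congr 1
    · refine Finset.sum_congr rfl fun u _ => ?_
      rw [List.map_map, sum_range_list]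
      rfl
    · refine Finset.sum_congr rfl fun u _ => ?_
      rw [List.map_map, sum_range_list]
      rfl

/-- Indicator of a boolean. -/
def ind (b : Bool) : ℤ := if b = true then 1 else 0

/-- Twice the number of edges kept. -/
def e2 (k t : ℕ) (D : Vr → ℕ → Bool) (s : Ds → ℤ) : ℤ :=
  tot k t D (fun v => tot k t D (fun w => s v * s w * ind (gadj v w)))

theorem star_sum (n : ℕ) (g : ℕ → ℤ) :
    ∑ l ∈ Finset.range (n + 1), ∑ l' ∈ Finset.range (n + 1),
      g l * g l' * ind (decide (l = 0) ^^ decide (l' = 0)) =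
    2 * (g 0 * ∑ l ∈ Finset.range n, g (l + 1)) := by
  rw [Finset.sum_range_succ']
  have h1 : ∀ l, ∑ l' ∈ Finset.range (n + 1), g (l + 1) * g l' *
      ind (decide (l + 1 = 0) ^^ decide (l' = 0)) = g (l + 1) * g 0 := by
    intro l
    rw [Finset.sum_range_succ']
    simp [ind]
  have h2 : ∑ l' ∈ Finset.range (n + 1), g 0 * g l' * ind (decide (0 = 0) ^^ decide (l' = 0)) =
      g 0 * ∑ l ∈ Finset.range n, g (l + 1) := by
    rw [Finset.sum_range_succ', Finset.mul_sum]
    simp [ind]
  rw [Finset.sum_congr rfl (fun l _ => h1 l), h2, ← Finset.sum_mul]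
  ring

/-- Sum of `s` over the star module of `u`. -/
def S0 (k t : ℕ) (D : Vr → ℕ → Bool) (s : Ds → ℤ) (u : Vr) : ℤ :=
  ∑ x ∈ Finset.range t, ∑ l ∈ Finset.range (W k t D u x + 1), s (0, u, x, l)

/-- Sum of `s` over the pendant module of `u`. -/
def S1 (k t : ℕ) (D : Vr → ℕ → Bool) (s : Ds → ℤ) (u : Vr) : ℤ :=
  ∑ r ∈ Finset.range (rho k t D u), s (1, u, r, 0)

theorem ind00 (u u' : Vr) (x x' l l' : ℕ) : ind (gadj (0, u, x, l) (0, u', x', l')) =
    ind (shr u u') + (if u' = u then (if x' = x then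
      ind (decide (l = 0) ^^ decide (l' = 0)) else 0) else 0) := by
  unfold gadj inner outer
  by_cases h : u' = u
  · subst h
    rw [shr_self]
    by_cases hx : x' = x
    · subst hx
      simp [ind]
    · have : ¬ x = x' := fun h => hx h.symm
      simp [ind, hx, this]
  · have : ¬ u = u' := fun h' => h h'.symm
    simp [ind, h, this]

theorem ind01 (u u' : Vr) (x x' l : ℕ) : ind (gadj (0, u, x, l) (1, u', x', 0)) =
    if u' = u then 1 else 0 := by
  unfold gadj inner outer
  by_cases h : u' = u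
  · subst h
    simp [ind]
  · have : ¬ u = u' := fun h' => h h'.symm
    simp [ind, h, this]

theorem ind02 (u u' : Vr) (x x' l l' : ℕ) : ind (gadj (0, u, x, l) (2, u', x', l')) = 0 := by
  unfold gadj inner outer
  simp [ind]

theorem ind11 (u u' : Vr) (x x' : ℕ) : ind (gadj (1, u, x, 0) (1, u', x', 0)) = 0 := by
  unfold gadj inner outer
  simp [ind]

theorem ind12 (u u' : Vr) (x x' l' : ℕ) : ind (gadj (1, u, x, 0) (2, u', x', l')) = 0 := by
  unfold gadj inner outer
  simp [ind]

theorem ind22 (u : Vr) (x x' l l' : ℕ) : ind (gadj (2, u, x, l) (2, u, x', l')) =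
    if x' = x then ind (decide (l = 0) ^^ decide (l' = 0)) else 0 := by
  unfold gadj inner outer
  by_cases hx : x' = x
  · subst hx
    simp [ind]
  · have : ¬ x = x' := fun h => hx h.symm
    simp [ind, hx, this]

theorem e2_eq (s : Ds → ℤ) : e2 k t D s =
    ∑ u ∈ (us k).toFinset, ∑ v ∈ (us k).toFinset, (if shr u v = true then
      S0 k t D s u * S0 k t D s v else 0) +
    2 * ∑ u ∈ (us k).toFinset, S0 k t D s u * S1 k t D s u +
    2 * ∑ u ∈ (us k).toFinset, ∑ x ∈ Finset.range t,
      s (0, u, x, 0) * ∑ l ∈ Finset.range (W k t D u x), s (0, u, x, l + 1) +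
    2 * ∑ i ∈ Finset.range (qq k t),
      s (2, (0, 0, 0), i, 0) * ∑ l ∈ Finset.range (lam k t D), s (2, (0, 0, 0), i, l + 1) := by
  have n0 : ∀ u ∈ (us k).toFinset, ∀ x ∈ Finset.range t, ∀ l,
      tot k t D (fun w => s (0, u, x, l) * s w * ind (gadj (0, u, x, l) w)) =
      s (0, u, x, l) * ∑ v ∈ (us k).toFinset, (if shr u v = true then S0 k t D s v else 0) +
      ∑ l' ∈ Finset.range (W k t D u x + 1), s (0, u, x, l) * s (0, u, x, l') *
        ind (decide (l = 0) ^^ decide (l' = 0)) +
      s (0, u, x, l) * S1 k t D s u := by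
    intro u hu x hx l
    unfold tot
    simp only [ind00, ind01, ind02, mul_zero, Finset.sum_const_zero, add_zero]
    congr 1
    · rw [Finset.mul_sum]
      simp only [mul_add, Finset.sum_add_distrib]
      congr 1
      · refine Finset.sum_congr rfl fun v _ => ?_
        unfold S0
        split_ifs with h
        · simp only [h, ind, if_true, mul_one]
          simp only [Finset.mul_sum]
        · simp [h, ind]
      · rw [Finset.sum_eq_single_of_mem u hu]
        · rw [Finset.sum_eq_single_of_mem x hx]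
          · simp
          · intro x' _ hx'
            simp [hx']
        · intro u' _ hu'
          simp [hu']
    · rw [Finset.sum_eq_single_of_mem u hu]
      · simp [S1, Finset.mul_sum]
      · intro u' _ hu'
        simp [hu']
  have n1 : ∀ u ∈ (us k).toFinset, ∀ r,
      tot k t D (fun w => s (1, u, r, 0) * s w * ind (gadj (1, u, r, 0) w)) =
      s (1, u, r, 0) * S0 k t D s u := by
    intro u hu r
    unfold tot
    simp only [gadj_comm (1, u, r, 0), ind11, ← gadj_comm (2, _, _, _), ind01]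
    have : ∀ i l, ind (gadj (2, ((0 : ℕ), (0 : ℕ), (0 : ℕ)), i, l) (1, u, r, 0)) = 0 := by
      intro i l
      rw [gadj_comm, ind12]
    simp only [this, mul_zero, Finset.sum_const_zero, add_zero]
    rw [Finset.sum_eq_single_of_mem u hu]
    · simp [S0, Finset.mul_sum]
    · intro u' _ hu'
      have : ¬ u = u' := fun h => hu' h.symm
      simp [this]
  have n2 : ∀ i ∈ Finset.range (qq k t), ∀ l,
      tot k t D (fun w => s (2, (0, 0, 0), i, l) * s w * ind (gadj (2, (0, 0, 0), i, l) w)) =
      ∑ l' ∈ Finset.range (lam k t D + 1), s (2, (0, 0, 0), i, l) * s (2, (0, 0, 0), i, l') *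
        ind (decide (l = 0) ^^ decide (l' = 0)) := by
    intro i hi l
    unfold tot
    have h1 : ∀ u x l', ind (gadj (2, ((0 : ℕ), (0 : ℕ), (0 : ℕ)), i, l) (0, u, x, l')) = 0 := by
      intro u x l'
      rw [gadj_comm, ind02]
    have h2 : ∀ u x, ind (gadj (2, ((0 : ℕ), (0 : ℕ), (0 : ℕ)), i, l) (1, u, x, 0)) = 0 := by
      intro u x
      rw [gadj_comm, ind12]
    simp only [h1, h2, mul_zero, Finset.sum_const_zero, zero_add, ind22]
    rw [Finset.sum_eq_single_of_mem i hi]
    · simp
    · intro i' _ hi'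
      simp [hi']
  unfold e2
  rw [tot]
  have a0 : ∑ u ∈ (us k).toFinset, ∑ x ∈ Finset.range t, ∑ l ∈ Finset.range (W k t D u x + 1),
      tot k t D (fun w => s (0, u, x, l) * s w * ind (gadj (0, u, x, l) w)) =
      ∑ u ∈ (us k).toFinset, (S0 k t D s u * ∑ v ∈ (us k).toFinset,
        (if shr u v = true then S0 k t D s v else 0) +
      2 * ∑ x ∈ Finset.range t,
        s (0, u, x, 0) * ∑ l ∈ Finset.range (W k t D u x), s (0, u, x, l + 1) +
      S0 k t D s u * S1 k t D s u) := by
    refine Finset.sum_congr rfl fun u hu => ?_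
    have : ∀ x ∈ Finset.range t, ∑ l ∈ Finset.range (W k t D u x + 1),
        tot k t D (fun w => s (0, u, x, l) * s w * ind (gadj (0, u, x, l) w)) =
        (∑ l ∈ Finset.range (W k t D u x + 1), s (0, u, x, l)) *
          (∑ v ∈ (us k).toFinset, (if shr u v = true then S0 k t D s v else 0)) +
        2 * (s (0, u, x, 0) * ∑ l ∈ Finset.range (W k t D u x), s (0, u, x, l + 1)) +
        (∑ l ∈ Finset.range (W k t D u x + 1), s (0, u, x, l)) * S1 k t D s u := by
      intro x hx
      rw [Finset.sum_congr rfl (fun l _ => n0 u hu x hx l), Finset.sum_add_distrib,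
        Finset.sum_add_distrib, star_sum (W k t D u x) (fun l => s (0, u, x, l)),
        Finset.sum_mul, Finset.sum_mul]
    rw [Finset.sum_congr rfl this, Finset.sum_add_distrib, Finset.sum_add_distrib,
      ← Finset.sum_mul, ← Finset.sum_mul, ← Finset.mul_sum]
    rfl
  have a1 : ∑ u ∈ (us k).toFinset, ∑ r ∈ Finset.range (rho k t D u),
      tot k t D (fun w => s (1, u, r, 0) * s w * ind (gadj (1, u, r, 0) w)) =
      ∑ u ∈ (us k).toFinset, S0 k t D s u * S1 k t D s u := by
    refine Finset.sum_congr rfl fun u hu => ?_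
    rw [Finset.sum_congr rfl (fun r _ => n1 u hu r), ← Finset.sum_mul, mul_comm]
    rfl
  have a2 : ∑ i ∈ Finset.range (qq k t), ∑ l ∈ Finset.range (lam k t D + 1),
      tot k t D (fun w => s (2, (0, 0, 0), i, l) * s w * ind (gadj (2, (0, 0, 0), i, l) w)) =
      2 * ∑ i ∈ Finset.range (qq k t),
      s (2, (0, 0, 0), i, 0) * ∑ l ∈ Finset.range (lam k t D), s (2, (0, 0, 0), i, l + 1) := by
    rw [Finset.mul_sum]
    refine Finset.sum_congr rfl fun i hi => ?_
    rw [Finset.sum_congr rfl (fun l _ => n2 i hi l),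
      star_sum (lam k t D) (fun l => s (2, (0, 0, 0), i, l))]
  rw [a0, a1, a2, Finset.sum_add_distrib, Finset.sum_add_distrib]
  have b1 : ∑ u ∈ (us k).toFinset, S0 k t D s u * ∑ v ∈ (us k).toFinset,
        (if shr u v = true then S0 k t D s v else 0) =
      ∑ u ∈ (us k).toFinset, ∑ v ∈ (us k).toFinset, (if shr u v = true then
      S0 k t D s u * S0 k t D s v else 0) := by
    refine Finset.sum_congr rfl fun u _ => ?_
    rw [Finset.mul_sum]
    refine Finset.sum_congr rfl fun v _ => ?_
    split_ifs <;> simp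
  rw [b1, ← Finset.mul_sum]
  ring

end

end Pool.Agent.H633R2
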