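import Pool.Agent.H633R2.DkSPoly

/-!
# Correctness of the reduction and the bound for the modular width
-/

namespace Pool.Agent.H633R2

open Pool.Agent.NPC

/-! ### Cliques and tuples -/

theorem edg_iff (M : List (List Bool)) (i j : Fin M.length) :
    edg M i j = true ↔ (graphOf M).Adj i j := by
  unfold edg graphOf
  simp only [Bool.and_eq_true, Bool.not_eq_true', decide_eq_false_iff_not, Bool.or_eq_true,
    ne_eq, Fin.ext_iff]

theorem hasClique_iff (M : List (List Bool)) (k : ℕ) : HasClique (M, k) ↔
    ∃ a : ℕ → ℕ, (∀ i < k, a i < M.length) ∧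
      ∀ i < k, ∀ j < k, i ≠ j → edg M (a i) (a j) = true := by
  constructor
  · rintro ⟨S, hS⟩
    rw [SimpleGraph.isNClique_iff] at hS
    obtain ⟨h1, h2⟩ := hS
    simp only at h2 S
    refine ⟨fun i => if h : i < k then (S.orderIsoOfFin h2 ⟨i, h⟩ : Fin M.length).1 else 0, ?_, ?_⟩
    · intro i hi
      simp only [dif_pos hi]
      exact Fin.isLt _
    · intro i hi j hj hij
      simp only [dif_pos hi, dif_pos hj]
      rw [edg_iff]
      refine h1 (by simp) (by simp) ?_
      intro h
      apply hij
      have h3 := (S.orderIsoOfFin h2).injective (Subtype.ext h)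
      simpa using h3
  · rintro ⟨a, ha, hE⟩
    have hinj : ∀ i < k, ∀ j < k, a i = a j → i = j := by
      intro i hi j hj hij
      by_contra hne
      have := hE i hi j hj hne
      unfold edg at this
      rw [hij] at this
      simp at this
    refine ⟨Finset.univ.image (fun i : Fin k => (⟨a i, ha i i.2⟩ : Fin M.length)), ?_⟩
    rw [SimpleGraph.isNClique_iff]
    constructor
    · intro x hx y hy hxy
      simp only [Finset.coe_image, Finset.coe_univ, Set.image_univ, Set.mem_range] at hx hy
      obtain ⟨i, rfl⟩ := hx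
      obtain ⟨j, rfl⟩ := hy
      have hij : (i : ℕ) ≠ j := fun h => hxy (by simp [h])
      exact (edg_iff M ⟨a i, ha i i.2⟩ ⟨a j, ha j j.2⟩).1 (hE i i.2 j j.2 hij)
    · rw [Finset.card_image_of_injective]
      · simp
      · intro i j hij
        simp only [Fin.mk.injEq] at hij
        exact Fin.ext (hinj i i.2 j j.2 hij)

/-! ### Change of the vertex set -/

theorem denseSub_iff {M : List (List Bool)} {m : ℕ} (h : M.length = m)
    (G : SimpleGraph (Fin m))
    (hadj : ∀ i j, (graphOf M).Adj i j ↔ G.Adj (Fin.cast h i) (Fin.cast h j)) (K t : ℕ) :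
    DenseSub (M, K, t) ↔ ∃ S : Finset (Fin m), S.card ≤ K ∧
      t ≤ (G.induce (S : Set (Fin m))).edgeSet.ncard := by
  subst h
  have : graphOf M = G := by
    ext i j
    exact hadj i j
  subst this
  exact Iff.rfl

theorem mat_adj (V : List Ds) (i j : Fin (mat V).length) :
    (graphOf (mat V)).Adj i j ↔
      (denseG V).Adj (Fin.cast (mat_length V) i) (Fin.cast (mat_length V) j) := by
  have hi : (i : ℕ) < V.length := (mat_length V) ▸ i.2
  have hj : (j : ℕ) < V.length := (mat_length V) ▸ j.2
  have e1 := entry_mat V hi hj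
  have e2 := entry_mat V hj hi
  unfold graphOf denseG
  simp only [ne_eq, Fin.ext_iff, Fin.val_cast]
  rw [e1, e2, gadj_comm V[(j : ℕ)] V[(i : ℕ)], or_self]
  simp

theorem card_lt_of_lt {M : List (List Bool)} {k : ℕ} (h : ¬ k ≤ M.length) :
    ¬ HasClique (M, k) := by
  rintro ⟨S, hS⟩
  apply h
  have h1 := hS.card_eq
  have h2 := Finset.card_le_univ S
  simp only [Fintype.card_fin] at h2
  simp only at h1
  omega

/-- The reduction is correct. -/
theorem red_correct (x : List (List Bool) × ℕ) : HasClique x ↔ DenseSub (red x) := by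
  obtain ⟨M, k⟩ := x
  by_cases hk : k ≤ M.length
  · have hmin : min k M.length = k := min_eq_left hk
    have hred : red (M, k) = (mat (VV M k), (VV M k).length - qq k (TT M),
        tgt k (TT M) (DD M)) := by
      unfold red
      simp [hk]
    rw [hred, denseSub_iff (mat_length (VV M k)) (denseG (VV M k)) (mat_adj _)]
    have h1 := dense_iff (k := k) (t := TT M) (D := DD M) (fun u x h => dom_even h)
    refine Iff.trans ?_ h1.symm
    rw [hasClique_iff]
    exact (sol_iff M.length k (edg M)).symm
  · refine iff_of_false (card_lt_of_lt hk) ?_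
    have hred : red (M, k) = ([[false]], 0, 1) := by
      unfold red
      simp [hk]
    rw [hred]
    rintro ⟨S, hS, hT⟩
    simp only [Nat.le_zero, Finset.card_eq_zero] at hS
    subst hS
    have : (((graphOf [[false]]).induce
        (((∅ : Finset (Fin [[false]].length)) : Set (Fin [[false]].length)))).edgeSet).ncard =
        0 := by
      rw [Set.ncard_eq_zero]
      rw [Set.eq_empty_iff_forall_notMem]
      intro e
      induction e using Sym2.ind with
      | _ a b => exact absurd a.2 (by simp)
    simp only at hT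
    rw [this] at hT
    omega

/-! ### The modular width -/

theorem stars_mwle {w : ℕ} (V : List Ds) (hV : V.Nodup) (p : ℕ × Vr) (A : Set (Fin V.length)) (hA : ∀ i ∈ A, (V[i].1, V[i].2.1) = p)
    (hne : A.Nonempty) : MWLE w ((denseG V).induce A) := by
  have hinj : ∀ i j : Fin V.length, V[i] = V[j] → i = j := fun i j h =>
    Fin.ext ((List.Nodup.getElem_inj_iff hV).1 h)
  have hadj : ∀ x y : A, ((denseG V).induce A).Adj x y ↔
      x ≠ y ∧ H633R2.inner V[x.1] V[y.1] = false := by
    rintro ⟨x, hx⟩ ⟨y, hy⟩
    have h1 := hA x hx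
    have h2 := hA y hy
    have h3 : V[x].1 = V[y].1 ∧ V[x].2.1 = V[y].2.1 := by
      rw [← h2, Prod.mk.injEq] at h1
      exact h1
    show (x ≠ y ∧ gadj V[x] V[y] = false) ↔ _
    unfold gadj
    rw [decide_eq_true h3, cond_true]
    simp
  refine MWLE.of_cross True _ inferInstance rfl hne.to_subtype _ (fun x => V[x.1].2.2.1) ?_ ?_
  · intro x y hxy
    rw [hadj, iff_true]
    refine ⟨fun h => hxy (by rw [h]), ?_⟩
    unfold H633R2.inner
    rw [decide_eq_false hxy, Bool.false_and]
  · intro x
    refine MWLE.of_cross False _ inferInstance rfl ⟨⟨x, rfl⟩⟩ _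
      (fun y => decide (V[y.1.1].2.2.2 = 0)) ?_ ?_
    · rintro ⟨y, hy⟩ ⟨z, hz⟩ hyz
      rw [iff_false]
      intro h
      have h1 := (hadj y z).1 h
      simp only [Set.mem_ofPred_eq] at hy hz
      unfold H633R2.inner at h1
      rw [decide_eq_true (hy.trans hz.symm), Bool.true_and] at h1
      have h2 := h1.2
      simp only at hyz
      rw [bne_eq_false_iff_eq] at h2
      exact hyz h2
    · rintro ⟨y, hy⟩
      have : Nonempty ({z : {y : A | V[y.1].2.2.1 = V[x.1].2.2.1} |
        decide (V[z.1.1].2.2.2 = 0) = decide (V[y.1].2.2.2 = 0)}) := ⟨⟨⟨y, hy⟩, rfl⟩⟩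
      refine MWLE.of_homog _ True ?_
      rintro ⟨⟨a, ha⟩, ha'⟩ ⟨⟨b, hb⟩, hb'⟩ hab
      rw [iff_true]
      have hne : a ≠ b := fun h => hab (by subst h; rfl)
      refine (hadj a b).2 ⟨hne, ?_⟩
      simp only [Set.mem_ofPred_eq] at ha hb ha' hb'
      unfold H633R2.inner
      rw [decide_eq_true (ha.trans hb.symm), Bool.true_and, bne_eq_false_iff_eq, ha', hb']

/-- The number of variables. -/
theorem us_length (k : ℕ) : (us k).length = 3 * k ^ 2 + 2 * k := by
  unfold us
  simp only [List.length_append, List.length_flatMap, List.length_cons, List.length_nil]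
  simp
  ring

/-- The bound for the modular width. -/
def gw (k : ℕ) : ℕ := 6 * k ^ 2 + 4 * k + 1

theorem dense_mwle {k t : ℕ} {D : Vr → ℕ → Bool} :
    MWLE (gw k) (denseG (verts k t D)) := by
  classical
  set V := verts k t D with hV
  let key : Fin V.length → ℕ × Vr := fun i => (V[i].1, V[i].2.1)
  have hne : 0 < V.length := by
    rw [List.length_pos_iff_exists_mem]
    refine ⟨(2, (0, 0, 0), 0, 0), ?_⟩
    rw [hV, mem_verts]
    right; right
    exact ⟨rfl, rfl, by unfold qq; simp, Nat.zero_le _⟩
  have : Nonempty (Set.range key) := ⟨⟨key ⟨0, hne⟩, ⟨_, rfl⟩⟩⟩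
  have hcard : Nat.card (Set.range key) ≤ gw k := by
    let L : Finset (ℕ × Vr) := insert (2, ((0, 0, 0) : Vr))
      ((us k).toFinset.image (fun u => (0, u)) ∪ (us k).toFinset.image (fun u => (1, u)))
    have hsub : Set.range key ⊆ (L : Set (ℕ × Vr)) := by
      rintro p ⟨i, rfl⟩
      have hmem : V[i] ∈ verts k t D := List.getElem_mem _
      rw [mem_verts] at hmem
      simp only [key, L, Finset.coe_insert, Finset.coe_union, Finset.coe_image,
        Set.mem_insert_iff, Set.mem_union, Set.mem_image, Finset.mem_coe, List.mem_toFinset]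
      rcases hmem with h | h | h
      · exact Or.inr (Or.inl ⟨_, h.2.1, by rw [h.1]⟩)
      · exact Or.inr (Or.inr ⟨_, h.2.1, by rw [h.1]⟩)
      · left; rw [h.1, h.2.1]
    have h1 : Nat.card (Set.range key) ≤ L.card := by
      rw [Nat.card_coe_set_eq, ← Set.ncard_coe_finset]
      exact Set.ncard_le_ncard hsub (Finset.finite_toSet _)
    have h2 : L.card ≤ ((us k).toFinset.card + (us k).toFinset.card) + 1 := by
      refine (Finset.card_insert_le _ _).trans (Nat.add_le_add_right ?_ 1)
      exact (Finset.card_union_le _ _).trans (Nat.add_le_add Finset.card_image_le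
        Finset.card_image_le)
    rw [List.toFinset_card_of_nodup (us_nodup k), us_length] at h2
    unfold gw
    omega
  let H : SimpleGraph (Set.range key) :=
    { Adj := fun p q => p ≠ q ∧ outer (p.1.1, p.1.2, 0, 0) (q.1.1, q.1.2, 0, 0) = false
      symm := ⟨fun p q h => ⟨h.1.symm, by
        have h1 := gadj_comm (p.1.1, p.1.2, 0, 0) (q.1.1, q.1.2, 0, 0)
        have hpq : ¬ (p.1.1 = q.1.1 ∧ p.1.2 = q.1.2) := fun h' =>
          h.1 (Subtype.ext (Prod.ext h'.1 h'.2))
        have hqp : ¬ (q.1.1 = p.1.1 ∧ q.1.2 = p.1.2) := fun h' =>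
          h.1 (Subtype.ext (Prod.ext h'.1.symm h'.2.symm))
        unfold gadj at h1
        rw [decide_eq_false hpq, decide_eq_false hqp, cond_false, cond_false] at h1
        rw [← h1]
        exact h.2⟩⟩
      loopless := ⟨fun _ h => h.1 rfl⟩ }
  refine MWLE.of_modules hcard H (denseG V) (fun i => ⟨key i, ⟨i, rfl⟩⟩) ?_ ?_
  · intro x y hxy
    have hxy' : ¬ (V[x].1 = V[y].1 ∧ V[x].2.1 = V[y].2.1) := fun h' =>
      hxy (Subtype.ext (Prod.ext h'.1 h'.2))
    have hne' : x ≠ y := fun h => hxy (by rw [h])
    show (x ≠ y ∧ gadj V[x] V[y] = false) ↔ (_ ≠ _ ∧ _)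
    unfold gadj
    rw [decide_eq_false hxy', cond_false]
    constructor
    · rintro ⟨_, h⟩
      exact ⟨hxy, h⟩
    · rintro ⟨_, h⟩
      exact ⟨hne', h⟩
  · rintro ⟨p, ⟨i, hi⟩⟩
    refine stars_mwle V verts_nodup p _ ?_ ⟨i, Subtype.ext hi⟩
    intro j hj
    exact congrArg Subtype.val hj

/-- The modular width of the constructed graphs. -/
theorem red_mw (x : List (List Bool) × ℕ) : modularWidth (graphOf (red x).1) ≤ gw x.2 := by
  refine modularWidth_le ?_
  obtain ⟨M, k⟩ := x
  by_cases hk : k ≤ M.length
  · have hmin : min k M.length = k := min_eq_left hk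
    have hred : (red (M, k)).1 = mat (VV M k) := by
      unfold red
      simp [hk]
    rw [hred]
    refine MWLE.iso ⟨⟨finCongr (mat_length (VV M k)).symm, ?_⟩⟩ (dense_mwle (k := k)
      (t := TT M) (D := DD M))
    intro i j
    rw [mat_adj]
    rfl
  · have hred : (red (M, k)).1 = [[false]] := by
      unfold red
      simp [hk]
    rw [hred]
    exact MWLE.of_unique _ (⟨0, by simp⟩ : Fin 1) (fun y => Subsingleton.elim (α := Fin 1) y _)

theorem gw_computable : Computable gw := by
  unfold gw
  exact add_computable (add_computable (mul_computable (Computable.const 6)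
    (pow_computable Computable.id 2)) (mul_computable (Computable.const 4) Computable.id))
    (Computable.const 1)

/-- The parameterized reduction from clique. -/
theorem clique_reduces : FptReduces (fun x : List (List Bool) × ℕ => x.2) HasClique
    (fun x : List (List Bool) × ℕ × ℕ => modularWidth (graphOf x.1)) DenseSub :=
  ⟨red, gw, FptTime.of_poly H633.poly_red, gw_computable, fun x => ⟨red_correct x, red_mw x⟩⟩

end Pool.Agent.H633R2
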