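import Mathlib

/-!
# Numerical part of the reduction from Clique to Densest k-Subgraph / modular width
-/

namespace Pool.Agent.H633R2

/-- Star sizes encoding (up to the multiplicity of the variable) a domain `D` of even numbers. -/
def wt (t : ℕ) (D : ℕ → Bool) (x : ℕ) : ℕ :=
  if x % 2 = 0 then t - x - (if D x = true then 1 else 0)
  else t - x - (if D (x + 1) = true then 0 else 1)

/-- The penalty of a value. -/
def pen (D : ℕ → Bool) (x : ℕ) : ℤ := if x % 2 = 1 then 1 else if D x = true then 0 else 2

theorem pen_nonneg (D : ℕ → Bool) (x : ℕ) : 0 ≤ pen D x := by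
  unfold pen; split_ifs <;> norm_num

theorem pen_eq_zero {D : ℕ → Bool} {x : ℕ} (h : pen D x = 0) : D x = true := by
  unfold pen at h
  split_ifs at h with h1 h2
  · simp at h
  · exact h2
  · simp at h

theorem pen_of_mem {D : ℕ → Bool} {x : ℕ} (h : D x = true) (h2 : x % 2 = 0) : pen D x = 0 := by
  unfold pen; rw [if_neg (by omega), if_pos h]

theorem wt_sum (t : ℕ) (D : ℕ → Bool) : ∀ x, x ≤ t →
    2 * ∑ i ∈ Finset.range x, (wt t D i : ℤ) = 2 * t * x - x ^ 2 - pen D x + pen D 0 := by
  intro x
  induction x with
  | zero => intro _; simp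
  | succ x ih =>
    intro hx
    have ih := ih (by omega)
    rw [Finset.sum_range_succ, mul_add, ih]
    have hxt : x < t := by omega
    rcases Nat.mod_two_eq_zero_or_one x with h | h
    · have h1 : (x + 1) % 2 = 1 := by omega
      have e1 : pen D (x + 1) = 1 := by unfold pen; rw [if_pos h1]
      have e2 : (wt t D x : ℤ) = t - x - (if D x = true then 1 else 0) := by
        unfold wt
        rw [if_pos h]
        split_ifs <;> push_cast [Nat.sub_sub] <;> omega
      have e3 : pen D x = if D x = true then 0 else 2 := by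
        unfold pen; rw [if_neg (by omega)]
      rw [e1, e2, e3]
      push_cast
      split_ifs <;> ring
    · have h1 : (x + 1) % 2 = 0 := by omega
      have e1 : pen D (x + 1) = if D (x + 1) = true then 0 else 2 := by
        unfold pen; rw [if_neg (by omega)]
      have e2 : (wt t D x : ℤ) = t - x - (if D (x + 1) = true then 0 else 1) := by
        unfold wt
        rw [if_neg (by omega)]
        split_ifs <;> push_cast [Nat.sub_sub] <;> omega
      have e3 : pen D x = 1 := by
        unfold pen; rw [if_pos h]
      rw [e1, e2, e3]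
      push_cast
      split_ifs <;> ring

/-- The weights are non-increasing. -/
theorem wt_anti (t : ℕ) (D : ℕ → Bool) {x y : ℕ} (h : x ≤ y) : wt t D y ≤ wt t D x := by
  have step : ∀ x, wt t D (x + 1) ≤ wt t D x := by
    intro x
    rcases Nat.mod_two_eq_zero_or_one x with h | h
    · have h1 : (x + 1) % 2 ≠ 0 := by omega
      unfold wt
      rw [if_pos h, if_neg h1]
      split_ifs <;> omega
    · have h1 : (x + 1) % 2 = 0 := by omega
      have h2 : x % 2 ≠ 0 := by omega
      unfold wt
      rw [if_neg h2, if_pos h1]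
      split_ifs <;> omega
  induction h with
  | refl => exact le_rfl
  | step _ ih => exact (step _).trans ih

/-- A sum of a non-increasing function over a set is at most the sum over an initial segment. -/
theorem sum_le_range {f : ℕ → ℕ} (hf : ∀ x y, x ≤ y → f y ≤ f x) :
    ∀ (S : Finset ℕ), ∑ x ∈ S, f x ≤ ∑ x ∈ Finset.range S.card, f x := by
  intro S
  induction S using Finset.induction_on_max with
  | empty => simp
  | insert a S ha ih =>
    have hna : a ∉ S := fun h => lt_irrefl _ (ha a h)
    rw [Finset.sum_insert hna, Finset.card_insert_of_notMem hna, Finset.sum_range_succ, add_comm]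
    refine Nat.add_le_add ih (hf _ _ ?_)
    have : S ⊆ Finset.range a := fun x hx => Finset.mem_range.2 (ha x hx)
    simpa using Finset.card_le_card this

/-! ### Variables, equations -/

/-- Variables: `(0,i,j)` edge choices, `(1,i,j)` and `(2,i,j)` slacks, `(3,i,0)` and `(4,0,j)`
vertex choices. -/
abbrev Vr := ℕ × ℕ × ℕ

/-- The list of variables. -/
def us (k : ℕ) : List Vr :=
  (List.range k).flatMap (fun i => (List.range k).flatMap
    (fun j => [(0, i, j), (1, i, j), (2, i, j)])) ++
  (List.range k).flatMap (fun i => [(3, i, 0), (4, 0, i)])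

/-- The number of equations of a variable. -/
def dg (k : ℕ) (u : Vr) : ℕ := if u.1 = 0 then 2 else if u.1 ≤ 2 then 1 else k

/-- Incidence between variables and equations. -/
def inc (u e : Vr) : Bool :=
  (decide (e.1 = 0) && ((decide (u.1 ≤ 1) && decide (u.2 = e.2)) ||
      (decide (u.1 = 3) && decide (u.2.1 = e.2.1)))) ||
  (decide (e.1 = 1) && ((decide (u.1 = 0 ∨ u.1 = 2) && decide (u.2 = e.2)) ||
      (decide (u.1 = 4) && decide (u.2.2 = e.2.2))))

/-- Two variables share an equation (one orientation). -/
def shr1 (u v : Vr) : Bool :=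
  (decide (u.1 = 0) && (decide (v.1 = 1 ∨ v.1 = 2) && decide (u.2 = v.2))) ||
  (decide (u.1 ≤ 1) && (decide (v.1 = 3) && decide (u.2.1 = v.2.1))) ||
  (decide (u.1 = 0 ∨ u.1 = 2) && (decide (v.1 = 4) && decide (u.2.2 = v.2.2)))

/-- Two variables share an equation. -/
def shr (u v : Vr) : Bool := shr1 u v || shr1 v u

theorem shr_comm (u v : Vr) : shr u v = shr v u := by unfold shr; rw [Bool.or_comm]

/-- Validity of a variable. -/
def okV (k : ℕ) (u : Vr) : Prop :=
  (u.1 ≤ 2 ∧ u.2.1 < k ∧ u.2.2 < k) ∨ (u.1 = 3 ∧ u.2.1 < k ∧ u.2.2 = 0) ∨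
    (u.1 = 4 ∧ u.2.1 = 0 ∧ u.2.2 < k)

theorem mem_us {k : ℕ} {u : Vr} : u ∈ us k ↔ okV k u := by
  obtain ⟨c, i, j⟩ := u
  unfold us okV
  simp only [List.mem_append, List.mem_flatMap, List.mem_range, List.mem_cons, Prod.mk.injEq,
    List.not_mem_nil, or_false]
  constructor
  · rintro (⟨i', hi', j', hj', h⟩ | ⟨i', hi', h⟩)
    · left
      rcases h with ⟨rfl, rfl, rfl⟩ | ⟨rfl, rfl, rfl⟩ | ⟨rfl, rfl, rfl⟩ <;> exact ⟨by norm_num, hi', hj'⟩
    · rcases h with ⟨rfl, rfl, rfl⟩ | ⟨rfl, rfl, rfl⟩
      · exact Or.inr (Or.inl ⟨rfl, hi', rfl⟩)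
      · exact Or.inr (Or.inr ⟨rfl, rfl, hi'⟩)
  · rintro (⟨hc, hi, hj⟩ | ⟨rfl, hi, rfl⟩ | ⟨rfl, rfl, hj⟩)
    · left
      refine ⟨i, hi, j, hj, ?_⟩
      have : c = 0 ∨ c = 1 ∨ c = 2 := by omega
      rcases this with rfl | rfl | rfl <;> simp
    · exact Or.inr ⟨i, hi, Or.inl ⟨rfl, rfl, rfl⟩⟩
    · exact Or.inr ⟨j, hj, Or.inr ⟨rfl, rfl, rfl⟩⟩

theorem us_nodup (k : ℕ) : (us k).Nodup := by
  unfold us
  rw [List.nodup_append]
  refine ⟨?_, ?_, ?_⟩
  · rw [List.nodup_flatMap]
    refine ⟨fun i _ => ?_, ?_⟩
    · rw [List.nodup_flatMap]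
      refine ⟨fun j _ => by simp, ?_⟩
      refine List.nodup_range.imp ?_
      intro a b hab
      simp [Function.onFun, List.Disjoint]
      omega
    · refine List.nodup_range.imp ?_
      intro a b hab
      simp only [Function.onFun, List.Disjoint, List.mem_flatMap, List.mem_range]
      rintro x ⟨j, _, hj⟩ ⟨j', _, hj'⟩
      simp at hj hj'
      rcases hj with rfl | rfl | rfl <;> simp at hj' <;> omega
  · rw [List.nodup_flatMap]
    refine ⟨fun i _ => by simp, ?_⟩
    refine List.nodup_range.imp ?_
    intro a b hab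
    simp [Function.onFun, List.Disjoint]
    omega
  · intro a ha b hb hab
    simp only [List.mem_flatMap, List.mem_range] at ha hb
    obtain ⟨i, _, j, _, h⟩ := ha
    obtain ⟨i', _, h'⟩ := hb
    subst hab
    simp at h h'
    rcases h with rfl | rfl | rfl <;> simp at h'

/-- The equations. -/
def es (k : ℕ) : Finset Vr := ({0, 1} : Finset ℕ) ×ˢ (Finset.range k ×ˢ Finset.range k)

theorem mem_es {k : ℕ} {e : Vr} : e ∈ es k ↔ (e.1 = 0 ∨ e.1 = 1) ∧ e.2.1 < k ∧ e.2.2 < k := by
  simp [es]

theorem inc_pair {k : ℕ} {u v : Vr} (hu : okV k u) (hv : okV k v) (huv : u ≠ v) :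
    ∑ e ∈ es k, (if inc u e = true then (1 : ℤ) else 0) * (if inc v e = true then 1 else 0) =
      if shr u v = true then 1 else 0 := by
  have h1 : ∀ e ∈ es k, (if inc u e = true then (1 : ℤ) else 0) * (if inc v e = true then 1 else 0) =
      if (inc u e = true ∧ inc v e = true) then 1 else 0 := by
    intro e _
    by_cases h : inc u e = true <;> by_cases h' : inc v e = true <;> simp [h, h']
  rw [Finset.sum_congr rfl h1, ← Finset.sum_filter, Finset.sum_const, nsmul_eq_mul, mul_one]
  obtain ⟨c, i, j⟩ := u
  obtain ⟨c', i', j'⟩ := v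
  by_cases hs : shr (c, i, j) (c', i', j') = true
  · rw [if_pos hs]
    norm_cast
    rw [Finset.card_eq_one]
    have key : ∃ e, e ∈ es k ∧ (inc (c, i, j) e = true ∧ inc (c', i', j') e = true) ∧
        ∀ e', e' ∈ es k → (inc (c, i, j) e' = true ∧ inc (c', i', j') e' = true) → e' = e := by
      have hs' := hs
      simp only [shr, shr1, Bool.or_eq_true, Bool.and_eq_true, decide_eq_true_eq,
        Prod.mk.injEq] at hs'
      simp only [okV] at hu hv
      have huniq : ∀ e e', e ∈ es k → e' ∈ es k →
          (inc (c, i, j) e = true ∧ inc (c', i', j') e = true) →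
          (inc (c, i, j) e' = true ∧ inc (c', i', j') e' = true) → e' = e := by
        rintro ⟨t, a, b⟩ ⟨t', a', b'⟩ he he' h h'
        simp only [mem_es, inc, Bool.or_eq_true, Bool.and_eq_true, decide_eq_true_eq,
          Prod.mk.injEq] at he he' h h'
        simp only [ne_eq, Prod.mk.injEq] at huv
        simp only [Prod.mk.injEq]
        omega
      rcases hs' with ((⟨h0, h1, h2⟩ | ⟨h0, h1, h2⟩) | ⟨h0, h1, h2⟩) |
        ((⟨h0, h1, h2⟩ | ⟨h0, h1, h2⟩) | ⟨h0, h1, h2⟩)
      · refine ⟨(c' - 1, i, j), ?_, ?_, ?_⟩
        · rw [mem_es]; simp only [true_and, and_true, and_self, true_or, or_true, false_or, or_false, false_and, and_false, or_self]; omega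
        · simp only [inc, Bool.or_eq_true, Bool.and_eq_true, decide_eq_true_eq, Prod.mk.injEq,
            true_and, and_true, and_self, true_or, or_true, false_or, or_false, false_and, and_false, or_self]
          omega
        · intro e' he' h'
          refine huniq _ _ ?_ he' ?_ h'
          · rw [mem_es]; simp only [true_and, and_true, and_self, true_or, or_true, false_or, or_false, false_and, and_false, or_self]; omega
          · simp only [inc, Bool.or_eq_true, Bool.and_eq_true, decide_eq_true_eq, Prod.mk.injEq,
            true_and, and_true, and_self, true_or, or_true, false_or, or_false, false_and, and_false, or_self]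
            omega
      · refine ⟨(0, i, j), ?_, ?_, ?_⟩
        · rw [mem_es]; simp only [true_and, and_true, and_self, true_or, or_true, false_or, or_false, false_and, and_false, or_self]; omega
        · simp only [inc, Bool.or_eq_true, Bool.and_eq_true, decide_eq_true_eq, Prod.mk.injEq,
            true_and, and_true, and_self, true_or, or_true, false_or, or_false, false_and, and_false, or_self]
          omega
        · intro e' he' h'
          refine huniq _ _ ?_ he' ?_ h'
          · rw [mem_es]; simp only [true_and, and_true, and_self, true_or, or_true, false_or, or_false, false_and, and_false, or_self]; omega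
          · simp only [inc, Bool.or_eq_true, Bool.and_eq_true, decide_eq_true_eq, Prod.mk.injEq,
            true_and, and_true, and_self, true_or, or_true, false_or, or_false, false_and, and_false, or_self]
            omega
      · refine ⟨(1, i, j), ?_, ?_, ?_⟩
        · rw [mem_es]; simp only [true_and, and_true, and_self, true_or, or_true, false_or, or_false, false_and, and_false, or_self]; omega
        · simp only [inc, Bool.or_eq_true, Bool.and_eq_true, decide_eq_true_eq, Prod.mk.injEq,
            true_and, and_true, and_self, true_or, or_true, false_or, or_false, false_and, and_false, or_self]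
          omega
        · intro e' he' h'
          refine huniq _ _ ?_ he' ?_ h'
          · rw [mem_es]; simp only [true_and, and_true, and_self, true_or, or_true, false_or, or_false, false_and, and_false, or_self]; omega
          · simp only [inc, Bool.or_eq_true, Bool.and_eq_true, decide_eq_true_eq, Prod.mk.injEq,
            true_and, and_true, and_self, true_or, or_true, false_or, or_false, false_and, and_false, or_self]
            omega
      · refine ⟨(c - 1, i', j'), ?_, ?_, ?_⟩
        · rw [mem_es]; simp only [true_and, and_true, and_self, true_or, or_true, false_or, or_false, false_and, and_false, or_self]; omega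
        · simp only [inc, Bool.or_eq_true, Bool.and_eq_true, decide_eq_true_eq, Prod.mk.injEq,
            true_and, and_true, and_self, true_or, or_true, false_or, or_false, false_and, and_false, or_self]
          omega
        · intro e' he' h'
          refine huniq _ _ ?_ he' ?_ h'
          · rw [mem_es]; simp only [true_and, and_true, and_self, true_or, or_true, false_or, or_false, false_and, and_false, or_self]; omega
          · simp only [inc, Bool.or_eq_true, Bool.and_eq_true, decide_eq_true_eq, Prod.mk.injEq,
            true_and, and_true, and_self, true_or, or_true, false_or, or_false, false_and, and_false, or_self]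
            omega
      · refine ⟨(0, i', j'), ?_, ?_, ?_⟩
        · rw [mem_es]; simp only [true_and, and_true, and_self, true_or, or_true, false_or, or_false, false_and, and_false, or_self]; omega
        · simp only [inc, Bool.or_eq_true, Bool.and_eq_true, decide_eq_true_eq, Prod.mk.injEq,
            true_and, and_true, and_self, true_or, or_true, false_or, or_false, false_and, and_false, or_self]
          omega
        · intro e' he' h'
          refine huniq _ _ ?_ he' ?_ h'
          · rw [mem_es]; simp only [true_and, and_true, and_self, true_or, or_true, false_or, or_false, false_and, and_false, or_self]; omega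
          · simp only [inc, Bool.or_eq_true, Bool.and_eq_true, decide_eq_true_eq, Prod.mk.injEq,
            true_and, and_true, and_self, true_or, or_true, false_or, or_false, false_and, and_false, or_self]
            omega
      · refine ⟨(1, i', j'), ?_, ?_, ?_⟩
        · rw [mem_es]; simp only [true_and, and_true, and_self, true_or, or_true, false_or, or_false, false_and, and_false, or_self]; omega
        · simp only [inc, Bool.or_eq_true, Bool.and_eq_true, decide_eq_true_eq, Prod.mk.injEq,
            true_and, and_true, and_self, true_or, or_true, false_or, or_false, false_and, and_false, or_self]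
          omega
        · intro e' he' h'
          refine huniq _ _ ?_ he' ?_ h'
          · rw [mem_es]; simp only [true_and, and_true, and_self, true_or, or_true, false_or, or_false, false_and, and_false, or_self]; omega
          · simp only [inc, Bool.or_eq_true, Bool.and_eq_true, decide_eq_true_eq, Prod.mk.injEq,
            true_and, and_true, and_self, true_or, or_true, false_or, or_false, false_and, and_false, or_self]
            omega
    obtain ⟨e, he, h, hu'⟩ := key
    refine ⟨e, ?_⟩
    ext e'
    simp only [Finset.mem_filter, Finset.mem_singleton]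
    constructor
    · rintro ⟨h1, h2⟩
      exact hu' e' h1 h2
    · rintro rfl
      exact ⟨he, h⟩
  · rw [if_neg hs]
    norm_cast
    rw [Finset.card_eq_zero, Finset.filter_eq_empty_iff]
    rintro ⟨t, a, b⟩ he
    simp only [shr, shr1, Bool.or_eq_true, Bool.and_eq_true, decide_eq_true_eq,
      Prod.mk.injEq, mem_es, inc, okV, ne_eq] at *
    omega

theorem inc_single {k : ℕ} {u : Vr} (hu : okV k u) :
    ∑ e ∈ es k, (if inc u e = true then (1 : ℤ) else 0) = dg k u := by
  obtain ⟨c, i, j⟩ := u
  simp only [okV] at hu
  have e1 : ∀ (t : ℕ) (f : ℕ → ℕ → ℤ), ∀ k, (∑ e ∈ ({t} : Finset ℕ) ×ˢ (Finset.range k ×ˢ Finset.range k),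
      f e.2.1 e.2.2) = ∑ a ∈ Finset.range k, ∑ b ∈ Finset.range k, f a b := by
    intro t f k
    rw [Finset.sum_product, Finset.sum_singleton, Finset.sum_product]
  rw [← Finset.sum_filter, Finset.sum_const, nsmul_eq_mul, mul_one]
  norm_cast
  rcases hu with ⟨hc, hi, hj⟩ | ⟨rfl, hi, rfl⟩ | ⟨rfl, rfl, hj⟩
  · have : c = 0 ∨ c = 1 ∨ c = 2 := by omega
    rcases this with rfl | rfl | rfl
    · have : (es k).filter (fun e => inc (0, i, j) e = true) = {(0, i, j), (1, i, j)} := by
        ext ⟨t, a, b⟩
        simp only [Finset.mem_filter, mem_es, inc, Bool.or_eq_true, Bool.and_eq_true,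
          decide_eq_true_eq, Prod.mk.injEq, Finset.mem_insert, Finset.mem_singleton,
          true_and, and_true, and_self, true_or, or_true, false_or, or_false, false_and, and_false, or_self]
        omega
      rw [this]
      simp [dg]
    · have : (es k).filter (fun e => inc (1, i, j) e = true) = {(0, i, j)} := by
        ext ⟨t, a, b⟩
        simp only [Finset.mem_filter, mem_es, inc, Bool.or_eq_true, Bool.and_eq_true,
          decide_eq_true_eq, Prod.mk.injEq, Finset.mem_singleton,
          true_and, and_true, and_self, true_or, or_true, false_or, or_false, false_and, and_false, or_self]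
        omega
      rw [this]
      simp [dg]
    · have : (es k).filter (fun e => inc (2, i, j) e = true) = {(1, i, j)} := by
        ext ⟨t, a, b⟩
        simp only [Finset.mem_filter, mem_es, inc, Bool.or_eq_true, Bool.and_eq_true,
          decide_eq_true_eq, Prod.mk.injEq, Finset.mem_singleton,
          true_and, and_true, and_self, true_or, or_true, false_or, or_false, false_and, and_false, or_self]
        omega
      rw [this]
      simp [dg]
  · have : (es k).filter (fun e => inc (3, i, 0) e = true) =
        (Finset.range k).image (fun b => (0, i, b)) := by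
      ext ⟨t, a, b⟩
      simp only [Finset.mem_filter, mem_es, inc, Bool.or_eq_true, Bool.and_eq_true,
        decide_eq_true_eq, Prod.mk.injEq, Finset.mem_image, Finset.mem_range,
        true_and, and_true, and_self, true_or, or_true, false_or, or_false, false_and, and_false, or_self]
      constructor
      · rintro ⟨h1, h2⟩
        exact ⟨b, by omega, by omega, by omega, rfl⟩
      · rintro ⟨b', hb', h1, h2, h3⟩
        omega
    rw [this, Finset.card_image_of_injective _ (fun a b h => by simpa using h)]
    simp [dg]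
  · have : (es k).filter (fun e => inc (4, 0, j) e = true) =
        (Finset.range k).image (fun b => (1, b, j)) := by
      ext ⟨t, a, b⟩
      simp only [Finset.mem_filter, mem_es, inc, Bool.or_eq_true, Bool.and_eq_true,
        decide_eq_true_eq, Prod.mk.injEq, Finset.mem_image, Finset.mem_range,
        true_and, and_true, and_self, true_or, or_true, false_or, or_false, false_and, and_false, or_self]
      constructor
      · rintro ⟨h1, h2⟩
        exact ⟨a, by omega, by omega, rfl, by omega⟩
      · rintro ⟨b', hb', h1, h2, h3⟩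
        omega
    rw [this, Finset.card_image_of_injective _ (fun a b h => by simpa using h)]
    simp [dg]

theorem shr_self (u : Vr) : shr u u = false := by
  obtain ⟨c, i, j⟩ := u
  simp only [shr, shr1, Bool.or_self, Bool.or_eq_false_iff, Bool.and_eq_false_iff,
    decide_eq_false_iff_not]
  omega

/-- The value of an equation. -/
def yv (k : ℕ) (x : Vr → ℤ) (e : Vr) : ℤ :=
  ∑ u ∈ (us k).toFinset, (if inc u e = true then (1 : ℤ) else 0) * x u

theorem quad (k : ℕ) (x : Vr → ℤ) :
    ∑ u ∈ (us k).toFinset, ∑ v ∈ (us k).toFinset, (if shr u v = true then x u * x v else 0) =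
      ∑ e ∈ es k, yv k x e ^ 2 - ∑ u ∈ (us k).toFinset, dg k u * x u ^ 2 := by
  have h1 : ∑ e ∈ es k, yv k x e ^ 2 =
      ∑ u ∈ (us k).toFinset, ∑ v ∈ (us k).toFinset, x u * x v *
        ∑ e ∈ es k, (if inc u e = true then (1 : ℤ) else 0) * (if inc v e = true then 1 else 0) := by
    simp only [yv, sq, Finset.sum_mul_sum]
    rw [Finset.sum_comm]
    refine Finset.sum_congr rfl fun u _ => ?_
    rw [Finset.sum_comm]
    refine Finset.sum_congr rfl fun v _ => ?_
    rw [Finset.mul_sum]
    refine Finset.sum_congr rfl fun e _ => ?_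
    ring
  rw [h1, eq_sub_iff_add_eq, ← Finset.sum_add_distrib]
  refine Finset.sum_congr rfl fun u hu => ?_
  have hu' : okV k u := mem_us.1 (List.mem_toFinset.1 hu)
  have h2 : ∀ v ∈ (us k).toFinset, x u * x v *
        ∑ e ∈ es k, (if inc u e = true then (1 : ℤ) else 0) * (if inc v e = true then 1 else 0) =
      (if shr u v = true then x u * x v else 0) + (if v = u then dg k u * x u ^ 2 else 0) := by
    intro v hv
    have hv' : okV k v := mem_us.1 (List.mem_toFinset.1 hv)
    by_cases huv : v = u
    · subst huv
      rw [shr_self, if_neg (by simp), if_pos rfl, zero_add]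
      have : ∀ e ∈ es k, (if inc v e = true then (1 : ℤ) else 0) *
          (if inc v e = true then 1 else 0) = (if inc v e = true then (1 : ℤ) else 0) := by
        intro e _
        split_ifs <;> simp
      rw [Finset.sum_congr rfl this, inc_single hv']
      ring
    · rw [if_neg huv, inc_pair hu' hv' (Ne.symm huv)]
      split_ifs <;> simp
  rw [Finset.sum_congr rfl h2, Finset.sum_add_distrib, Finset.sum_ite_eq' _ u, if_pos hu]

/-- The (doubled) objective. -/
def phi (k t : ℕ) (D : Vr → ℕ → Bool) (x : Vr → ℕ) : ℤ :=
  2 * ∑ u ∈ (us k).toFinset, dg k u * ∑ i ∈ Finset.range (x u), (wt t (D u) i : ℤ) -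
    ∑ u ∈ (us k).toFinset, ∑ v ∈ (us k).toFinset,
      (if shr u v = true then (x u : ℤ) * x v else 0)

/-- The maximum possible (doubled) objective. -/
def phimax (k t : ℕ) (D : Vr → ℕ → Bool) : ℤ :=
  2 * (k : ℤ) ^ 2 * t ^ 2 + ∑ u ∈ (us k).toFinset, dg k u * pen (D u) 0

theorem phi_eq (k t : ℕ) (D : Vr → ℕ → Bool) (x : Vr → ℕ)
    (hx : ∀ u ∈ (us k).toFinset, x u ≤ t) :
    phi k t D x = phimax k t D - ∑ e ∈ es k, (yv k (fun u => x u) e - t) ^ 2 -
      ∑ u ∈ (us k).toFinset, dg k u * pen (D u) (x u) := by
  unfold phi phimax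
  rw [quad k (fun u => (x u : ℤ))]
  have h1 : 2 * ∑ u ∈ (us k).toFinset, dg k u * ∑ i ∈ Finset.range (x u), (wt t (D u) i : ℤ) =
      ∑ u ∈ (us k).toFinset, (2 * t * (dg k u * x u) - dg k u * (x u : ℤ) ^ 2 -
        dg k u * pen (D u) (x u) + dg k u * pen (D u) 0) := by
    rw [Finset.mul_sum]
    refine Finset.sum_congr rfl fun u hu => ?_
    have := wt_sum t (D u) (x u) (hx u hu)
    rw [mul_left_comm, this]
    ring
  have h2 : ∑ e ∈ es k, yv k (fun u => (x u : ℤ)) e = ∑ u ∈ (us k).toFinset, dg k u * (x u : ℤ) := by
    unfold yv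
    rw [Finset.sum_comm]
    refine Finset.sum_congr rfl fun u hu => ?_
    rw [← Finset.sum_mul, inc_single (mem_us.1 (List.mem_toFinset.1 hu))]
  have h3 : ∑ e ∈ es k, (yv k (fun u => (x u : ℤ)) e - t) ^ 2 =
      ∑ e ∈ es k, yv k (fun u => (x u : ℤ)) e ^ 2 - 2 * t * ∑ u ∈ (us k).toFinset, dg k u * (x u : ℤ) +
        2 * (k : ℤ) ^ 2 * t ^ 2 := by
    rw [← h2, Finset.mul_sum]
    have h4 : (∑ e ∈ es k, (t : ℤ) ^ 2) = 2 * (k : ℤ) ^ 2 * t ^ 2 := by
      rw [Finset.sum_const, nsmul_eq_mul]
      have : ((es k).card : ℤ) = 2 * (k : ℤ) ^ 2 := by simp [es]; ring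
      rw [this]
    rw [← h4, ← Finset.sum_sub_distrib, ← Finset.sum_add_distrib]
    refine Finset.sum_congr rfl fun e _ => ?_
    ring
  rw [h1, h3]
  simp only [Finset.sum_add_distrib, Finset.sum_sub_distrib, ← Finset.mul_sum]
  ring

theorem phi_le (k t : ℕ) (D : Vr → ℕ → Bool) (x : Vr → ℕ)
    (hx : ∀ u ∈ (us k).toFinset, x u ≤ t) : phi k t D x ≤ phimax k t D := by
  rw [phi_eq k t D x hx]
  have h1 : 0 ≤ ∑ e ∈ es k, (yv k (fun u => (x u : ℤ)) e - t) ^ 2 :=
    Finset.sum_nonneg fun e _ => sq_nonneg _
  have h2 : 0 ≤ ∑ u ∈ (us k).toFinset, (dg k u : ℤ) * pen (D u) (x u) :=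
    Finset.sum_nonneg fun u _ => mul_nonneg (by positivity) (pen_nonneg _ _)
  linarith

/-- Solutions of the system. -/
def Sol (k t : ℕ) (D : Vr → ℕ → Bool) (x : Vr → ℕ) : Prop :=
  (∀ e ∈ es k, yv k (fun u => (x u : ℤ)) e = t) ∧ ∀ u ∈ us k, D u (x u) = true

theorem dg_pos {k : ℕ} {u : Vr} (h : okV k u) : 0 < dg k u := by
  unfold okV at h
  unfold dg
  split_ifs <;> omega

theorem phi_eq_max_iff (k t : ℕ) (D : Vr → ℕ → Bool) (hD : ∀ u x, D u x = true → x % 2 = 0)
    (x : Vr → ℕ) (hx : ∀ u ∈ (us k).toFinset, x u ≤ t) :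
    phi k t D x = phimax k t D ↔ Sol k t D x := by
  rw [phi_eq k t D x hx]
  have h1 : ∀ e ∈ es k, 0 ≤ (yv k (fun u => (x u : ℤ)) e - t) ^ 2 := fun e _ => sq_nonneg _
  have h2 : ∀ u ∈ (us k).toFinset, 0 ≤ (dg k u : ℤ) * pen (D u) (x u) :=
    fun u _ => mul_nonneg (by positivity) (pen_nonneg _ _)
  have h1' := Finset.sum_nonneg h1
  have h2' := Finset.sum_nonneg h2
  constructor
  · intro h
    have e1 : ∑ e ∈ es k, (yv k (fun u => (x u : ℤ)) e - t) ^ 2 = 0 := by linarith
    have e2 : ∑ u ∈ (us k).toFinset, (dg k u : ℤ) * pen (D u) (x u) = 0 := by linarith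
    rw [Finset.sum_eq_zero_iff_of_nonneg h1] at e1
    rw [Finset.sum_eq_zero_iff_of_nonneg h2] at e2
    refine ⟨fun e he => ?_, fun u hu => ?_⟩
    · have := e1 e he
      have := pow_eq_zero_iff (two_ne_zero) |>.1 this
      linarith
    · have h3 := e2 u (List.mem_toFinset.2 hu)
      have h4 := dg_pos (mem_us.1 hu)
      rcases mul_eq_zero.1 h3 with h5 | h5
      · exfalso
        have : dg k u = 0 := by exact_mod_cast h5
        omega
      · exact pen_eq_zero h5
  · rintro ⟨h3, h4⟩
    have e1 : ∑ e ∈ es k, (yv k (fun u => (x u : ℤ)) e - t) ^ 2 = 0 :=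
      Finset.sum_eq_zero fun e he => by rw [h3 e he]; ring
    have e2 : ∑ u ∈ (us k).toFinset, (dg k u : ℤ) * pen (D u) (x u) = 0 :=
      Finset.sum_eq_zero fun u hu => by
        have h5 := h4 u (List.mem_toFinset.1 hu)
        rw [pen_of_mem h5 (hD _ _ h5), mul_zero]
    rw [e1, e2]
    ring

end Pool.Agent.H633R2
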