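import Pool.Agent.H633R2.DkSMain

/-!
# The optimisation version
-/

namespace Pool.Agent.H633R2

theorem denseSub_iff_le (x : List (List Bool) × ℕ × ℕ) :
    DenseSub x ↔ x.2.2 ≤ maxEdges (x.1, x.2.1) := by
  classical
  obtain ⟨M, k, t⟩ := x
  set A : Set ℕ := {m | ∃ S : Finset (Fin M.length), S.card ≤ k ∧
    m = ((graphOf M).induce (S : Set (Fin M.length))).edgeSet.ncard} with hA
  have hfin : A.Finite := by
    have : A ⊆ Set.range (fun S : Finset (Fin M.length) =>
        ((graphOf M).induce (S : Set (Fin M.length))).edgeSet.ncard) := by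
      rintro m ⟨S, _, rfl⟩
      exact ⟨S, rfl⟩
    exact (Set.finite_range _).subset this
  have hne : A.Nonempty := ⟨_, ∅, by simp, rfl⟩
  constructor
  · rintro ⟨S, hS, hT⟩
    exact hT.trans (le_csSup hfin.bddAbove ⟨S, hS, rfl⟩)
  · intro h
    obtain ⟨S, hS, he⟩ := Nat.sSup_mem hne hfin.bddAbove
    refine ⟨S, hS, ?_⟩
    rw [← he]
    exact h

end Pool.Agent.H633R2

namespace Pool.Agent.NPC.H633

open Pool.Agent.H633R2

/-- Computing the optimum in fpt time suffices for deciding. -/
theorem isFpt_of_maxEdges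
    (h : FptTime (fun x : List (List Bool) × ℕ => modularWidth (graphOf x.1)) maxEdges) :
    IsFpt (fun x : List (List Bool) × ℕ × ℕ => modularWidth (graphOf x.1)) DenseSub := by
  have h1 : FptTime (fun x : List (List Bool) × ℕ × ℕ => modularWidth (graphOf x.1))
      (fun x : List (List Bool) × ℕ × ℕ => maxEdges (x.1, x.2.1)) :=
    FptTime.comp (κ := fun x : List (List Bool) × ℕ × ℕ => modularWidth (graphOf x.1))
      (f := fun x : List (List Bool) × ℕ × ℕ => (x.1, x.2.1)) h
      (FptTime.of_poly (Poly.pair (Poly.fst Poly.id) (Poly.fst (Poly.snd Poly.id))))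
      Computable.id (fun _ => le_rfl)
  have h2 : FptTime (fun x : List (List Bool) × ℕ × ℕ => modularWidth (graphOf x.1))
      (fun x : List (List Bool) × ℕ × ℕ => x.2.2) :=
    FptTime.of_poly (Poly.snd (Poly.snd Poly.id))
  have h3 := FptTime.poly_comp (g := fun p : ℕ × ℕ => decide (p.2 ≤ p.1))
    (Poly.decide_le (Poly.snd Poly.id) (Poly.fst Poly.id)) (h1.pair h2)
  refine ⟨_, h3, fun x => ?_⟩
  rw [decide_eq_true_iff]
  exact (denseSub_iff_le x).symm

end Pool.Agent.NPC.H633
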