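import Pool.Agent.H633R2.DkSRed
import Pool.Agent.H633R2.Fpt

/-!
# The reduction is computable in polynomial time
-/

namespace Pool.Agent.H633R2

/-- Adjacency of two different vertices in the graph of a matrix. -/
def edg (M : List (List Bool)) (i j : ℕ) : Bool :=
  !(decide (i = j)) && (entry M i j || entry M j i)

/-- The domains for the graph of a matrix. -/
def DD (M : List (List Bool)) : Vr → ℕ → Bool := dom M.length (edg M)

/-- The bound of the variables for the graph of a matrix. -/
def TT (M : List (List Bool)) : ℕ := tt M.length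

/-- The descriptors of the vertices of the new graph. -/
def VV (M : List (List Bool)) (k : ℕ) : List Ds := verts k (TT M) (DD M)

/-- The reduction: from `(G, k)` to `(G', k', t')`. -/
def red (x : List (List Bool) × ℕ) : List (List Bool) × ℕ × ℕ :=
  bif decide (x.2 ≤ x.1.length) then
    (mat (VV x.1 (min x.2 x.1.length)),
      (VV x.1 (min x.2 x.1.length)).length - qq (min x.2 x.1.length) (TT x.1),
      tgt (min x.2 x.1.length) (TT x.1) (DD x.1))
  else ([[false]], 0, 1)

end Pool.Agent.H633R2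

namespace Pool.Agent.NPC.H633

open Pool.Agent.H633R2

section

variable {α β : Type} [TEnc α] [TEnc β]

theorem UPoly.condP {b : α → Bool} {m n : α → ℕ} (hb : Poly b) (hm : UPoly m) (hn : UPoly n) :
    UPoly (fun a => bif b a then m a else n a) :=
  (Poly.cond hb hm hn).congr fun a => by
    show (bif b a then List.replicate (m a) () else List.replicate (n a) ()) =
      List.replicate (bif b a then m a else n a) ()
    cases b a <;> rfl

theorem UPoly.iteP {p : α → Prop} [DecidablePred p] {m n : α → ℕ}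
    (hp : Poly (fun a => decide (p a))) (hm : UPoly m) (hn : UPoly n) :
    UPoly (fun a => if p a then m a else n a) :=
  (UPoly.condP hp hm hn).congr fun a => by by_cases h : p a <;> simp [h]

theorem UPoly.subP {m n : α → ℕ} (hm : UPoly m) (hn : Poly n) : UPoly (fun a => m a - n a) :=
  UPoly.of_le (Poly.sub hm.toPoly hn) hm fun _ => Nat.sub_le _ _

theorem UPoly.sumMap {l : α → List β} {F : α → β → ℕ} (hl : Poly l)
    (hF : UPoly (fun p : α × β => F p.1 p.2)) : UPoly (fun a => ((l a).map (F a)).sum) :=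
  (Poly.flatMap (F := fun a b => List.replicate (F a b) ()) hl hF).congr fun a => by
    rw [List.eq_replicate_iff]
    exact ⟨by simp [List.length_flatMap], fun _ _ => rfl⟩

theorem poly_entry {M : α → List (List Bool)} {i j : α → ℕ} (hM : Poly M) (hi : Poly i)
    (hj : Poly j) : Poly (fun a => entry (M a) (i a) (j a)) :=
  Poly.getD (Poly.getD hM hi (Poly.const [])) hj (Poly.const false)

theorem poly_edg {M : α → List (List Bool)} {i j : α → ℕ} (hM : Poly M) (hi : Poly i)
    (hj : Poly j) : Poly (fun a => edg (M a) (i a) (j a)) :=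
  Poly.and (Poly.not (Poly.decide_eq hi hj)) (Poly.or (poly_entry hM hi hj) (poly_entry hM hj hi))

variable {M : α → List (List Bool)} {k : α → ℕ} {u v : α → Vr} {x : α → ℕ}

theorem poly_DD (hM : Poly M) (hu : Poly u) (hx : Poly x) :
    Poly (fun a => DD (M a) (u a) (x a)) := by
  have hn : Poly (fun a => (M a).length) := Poly.length hM
  have hn2 : Poly (fun a => (M a).length + 2) := Poly.add hn (Poly.const 2)
  have hh : Poly (fun a => x a / 2) := Poly.div hx (Poly.const 2)
  have hd : Poly (fun a => x a / 2 / ((M a).length + 2)) := Poly.div hh hn2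
  have hm : Poly (fun a => x a / 2 % ((M a).length + 2)) := Poly.mod hh hn2
  have hu1 : Poly (fun a => (u a).1) := Poly.fst hu
  have hu2 : Poly (fun a => (u a).2.1) := Poly.fst (Poly.snd hu)
  have hu3 : Poly (fun a => (u a).2.2) := Poly.snd (Poly.snd hu)
  unfold DD dom
  refine Poly.and (Poly.decide_eq (Poly.mod hx (Poly.const 2)) (Poly.const 0)) ?_
  refine Poly.cond (Poly.decide_eq hu1 (Poly.const 0)) ?_ ?_
  · refine Poly.and (Poly.decide_lt hd hn) (Poly.and (Poly.decide_lt hm hn) ?_)
    exact Poly.cond (Poly.decide_eq hu2 hu3) (Poly.decide_eq hd hm) (poly_edg hM hd hm)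
  · refine Poly.cond (Poly.or (Poly.decide_eq hu1 (Poly.const 1))
      (Poly.decide_eq hu1 (Poly.const 4))) ?_ ?_
    · exact Poly.decide_lt hh hn2
    · exact Poly.decide_eq hm (Poly.const 0)

theorem upoly_TT (hM : Poly M) : UPoly (fun a => TT (M a)) := by
  have hn := UPoly.length hM
  unfold TT tt
  exact UPoly.mul (UPoly.const 2) (UPoly.mul (UPoly.add hn (UPoly.const 1))
    (UPoly.add hn (UPoly.const 3)))

theorem upoly_wt (hM : Poly M) (hu : Poly u) (hx : Poly x) :
    UPoly (fun a => wt (TT (M a)) (DD (M a) (u a)) (x a)) := by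
  have hT := upoly_TT hM
  unfold wt
  refine UPoly.iteP (Poly.decide_eq (Poly.mod hx (Poly.const 2)) (Poly.const 0)) ?_ ?_
  · refine UPoly.subP (UPoly.subP hT hx) (UPoly.toPoly ?_)
    exact UPoly.iteP (Poly.decide_bool (poly_DD hM hu hx)) (UPoly.const 1) (UPoly.const 0)
  · refine UPoly.subP (UPoly.subP hT hx) (UPoly.toPoly ?_)
    exact UPoly.iteP (Poly.decide_bool (poly_DD hM hu (Poly.succ hx))) (UPoly.const 0)
      (UPoly.const 1)

theorem upoly_dg (hk : UPoly k) (hu : Poly u) : UPoly (fun a => dg (k a) (u a)) := by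
  have hu1 : Poly (fun a => (u a).1) := Poly.fst hu
  unfold dg
  exact UPoly.iteP (Poly.decide_eq hu1 (Poly.const 0)) (UPoly.const 2)
    (UPoly.iteP (Poly.decide_le hu1 (Poly.const 2)) (UPoly.const 1) hk)

theorem upoly_W (hM : Poly M) (hk : UPoly k) (hu : Poly u) (hx : Poly x) :
    UPoly (fun a => W (k a) (TT (M a)) (DD (M a)) (u a) (x a)) := by
  unfold W
  exact UPoly.mul (upoly_dg hk hu) (upoly_wt hM hu hx)

theorem upoly_msz (hM : Poly M) (hk : UPoly k) (hu : Poly u) :
    UPoly (fun a => msz (k a) (TT (M a)) (DD (M a)) (u a)) := by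
  unfold msz
  refine UPoly.sumMap (F := fun a x => W (k a) (TT (M a)) (DD (M a)) (u a) x + 1)
    (upoly_TT hM).range ?_
  have h1 : Poly (fun p : α × ℕ => p.1) := Poly.fst Poly.id
  exact UPoly.add (upoly_W (hM.comp h1) (hk.comp h1) (hu.comp h1) (Poly.snd Poly.id))
    (UPoly.const 1)

theorem poly_shr1 (hu : Poly u) (hv : Poly v) : Poly (fun a => shr1 (u a) (v a)) := by
  have hu1 : Poly (fun a => (u a).1) := Poly.fst hu
  have hu2 : Poly (fun a => (u a).2) := Poly.snd hu
  have hu21 : Poly (fun a => (u a).2.1) := Poly.fst (Poly.snd hu)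
  have hu22 : Poly (fun a => (u a).2.2) := Poly.snd (Poly.snd hu)
  have hv1 : Poly (fun a => (v a).1) := Poly.fst hv
  have hv2 : Poly (fun a => (v a).2) := Poly.snd hv
  have hv21 : Poly (fun a => (v a).2.1) := Poly.fst (Poly.snd hv)
  have hv22 : Poly (fun a => (v a).2.2) := Poly.snd (Poly.snd hv)
  unfold shr1
  refine Poly.or (Poly.or ?_ ?_) ?_
  · refine Poly.and (Poly.decide_eq hu1 (Poly.const 0)) (Poly.and ?_ (Poly.decide_eq hu2 hv2))
    exact Poly.decide_or (Poly.decide_eq hv1 (Poly.const 1)) (Poly.decide_eq hv1 (Poly.const 2))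
  · exact Poly.and (Poly.decide_le hu1 (Poly.const 1))
      (Poly.and (Poly.decide_eq hv1 (Poly.const 3)) (Poly.decide_eq hu21 hv21))
  · exact Poly.and (Poly.decide_or (Poly.decide_eq hu1 (Poly.const 0))
      (Poly.decide_eq hu1 (Poly.const 2)))
      (Poly.and (Poly.decide_eq hv1 (Poly.const 4)) (Poly.decide_eq hu22 hv22))

theorem poly_shr (hu : Poly u) (hv : Poly v) : Poly (fun a => shr (u a) (v a)) :=
  Poly.or (poly_shr1 hu hv) (poly_shr1 hv hu)

theorem poly_us (hk : UPoly k) : Poly (fun a => us (k a)) := by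
  unfold us
  have hp1 : Poly (fun p : α × ℕ => p.1) := Poly.fst Poly.id
  have hp2 : Poly (fun p : α × ℕ => p.2) := Poly.snd Poly.id
  refine Poly.append ?_ ?_
  · refine Poly.flatMap (F := fun a i => (List.range (k a)).flatMap
      (fun j => [((0, i, j) : Vr), (1, i, j), (2, i, j)])) hk.range ?_
    refine Poly.flatMap (α := α × ℕ) (F := fun p j => [((0, p.2, j) : Vr), (1, p.2, j), (2, p.2, j)])
      (UPoly.range (hk.comp hp1)) ?_
    have q1 : Poly (fun q : (α × ℕ) × ℕ => q.1.2) := Poly.snd (Poly.fst Poly.id)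
    have q2 : Poly (fun q : (α × ℕ) × ℕ => q.2) := Poly.snd Poly.id
    have q3 : ∀ c : ℕ, Poly (fun q : (α × ℕ) × ℕ => ((c, q.1.2, q.2) : Vr)) := fun c =>
      Poly.pair (Poly.const c) (Poly.pair q1 q2)
    exact Poly.cons (q3 0) (Poly.cons (q3 1) (Poly.cons (q3 2) (Poly.const [])))
  · refine Poly.flatMap (F := fun _ i => [((3, i, 0) : Vr), (4, 0, i)]) hk.range ?_
    exact Poly.cons (Poly.pair (Poly.const 3) (Poly.pair hp2 (Poly.const 0)))
      (Poly.cons (Poly.pair (Poly.const 4) (Poly.pair (Poly.const 0) hp2)) (Poly.const []))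

theorem upoly_lam (hM : Poly M) (hk : UPoly k) :
    UPoly (fun a => lam (k a) (TT (M a)) (DD (M a))) := by
  unfold lam
  refine UPoly.add ?_ (UPoly.const 1)
  refine UPoly.sumMap (F := fun a u => msz (k a) (TT (M a)) (DD (M a)) u) (poly_us hk) ?_
  have h1 : Poly (fun p : α × Vr => p.1) := Poly.fst Poly.id
  exact upoly_msz (hM.comp h1) (hk.comp h1) (Poly.snd Poly.id)

theorem upoly_rho (hM : Poly M) (hk : UPoly k) (hu : Poly u) :
    UPoly (fun a => rho (k a) (TT (M a)) (DD (M a)) (u a)) := by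
  unfold rho
  refine UPoly.subP (upoly_lam hM hk) (UPoly.toPoly ?_)
  have h1 : Poly (fun p : α × Vr => p.1) := Poly.fst Poly.id
  refine UPoly.sumMap (F := fun a u => msz (k a) (TT (M a)) (DD (M a)) u)
    (Poly.filter (p := fun a w => shr (u a) w) (poly_us hk)
      (poly_shr (hu.comp h1) (Poly.snd Poly.id))) ?_
  exact upoly_msz (hM.comp h1) (hk.comp h1) (Poly.snd Poly.id)

theorem upoly_qq (hM : Poly M) (hk : UPoly k) : UPoly (fun a => qq (k a) (TT (M a))) := by
  unfold qq
  exact UPoly.add (UPoly.mul (UPoly.length (poly_us hk)) (upoly_TT hM)) (UPoly.const 1)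

theorem poly_VV (hM : Poly M) (hk : UPoly k) : Poly (fun a => VV (M a) (k a)) := by
  unfold VV verts
  have h1 : Poly (fun p : α × Vr => p.1) := Poly.fst Poly.id
  have h2 : Poly (fun p : α × Vr => p.2) := Poly.snd Poly.id
  have g1 : Poly (fun p : α × ℕ => p.1) := Poly.fst Poly.id
  have g2 : Poly (fun p : α × ℕ => p.2) := Poly.snd Poly.id
  refine Poly.append ?_ (Poly.append ?_ ?_)
  · refine Poly.flatMap (F := fun a u => (List.range (TT (M a))).flatMap (fun x =>
      (List.range (W (k a) (TT (M a)) (DD (M a)) u x + 1)).map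
        (fun l => ((0, u, x, l) : Ds)))) (poly_us hk) ?_
    refine Poly.flatMap (α := α × Vr) (F := fun p x =>
      (List.range (W (k p.1) (TT (M p.1)) (DD (M p.1)) p.2 x + 1)).map
        (fun l => ((0, p.2, x, l) : Ds))) (UPoly.range (upoly_TT (hM.comp h1))) ?_
    have q1 : Poly (fun q : (α × Vr) × ℕ => q.1.1) := Poly.fst (Poly.fst Poly.id)
    have q2 : Poly (fun q : (α × Vr) × ℕ => q.1.2) := Poly.snd (Poly.fst Poly.id)
    have q3 : Poly (fun q : (α × Vr) × ℕ => q.2) := Poly.snd Poly.id
    refine Poly.map (α := (α × Vr) × ℕ) (F := fun q l => ((0, q.1.2, q.2, l) : Ds))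
      (UPoly.range (UPoly.add (upoly_W (hM.comp q1) (hk.comp q1) q2 q3) (UPoly.const 1))) ?_
    have r1 : Poly (fun q : ((α × Vr) × ℕ) × ℕ => q.1) := Poly.fst Poly.id
    exact Poly.pair (Poly.const 0) (Poly.pair (q2.comp r1) (Poly.pair (q3.comp r1)
      (Poly.snd Poly.id)))
  · refine Poly.flatMap (F := fun a u => (List.range (rho (k a) (TT (M a)) (DD (M a)) u)).map
      (fun r => ((1, u, r, 0) : Ds))) (poly_us hk) ?_
    refine Poly.map (α := α × Vr) (F := fun p r => ((1, p.2, r, 0) : Ds))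
      (UPoly.range (upoly_rho (hM.comp h1) (hk.comp h1) h2)) ?_
    have r1 : Poly (fun q : (α × Vr) × ℕ => q.1) := Poly.fst Poly.id
    exact Poly.pair (Poly.const 1) (Poly.pair (h2.comp r1) (Poly.pair (Poly.snd Poly.id)
      (Poly.const 0)))
  · refine Poly.flatMap (F := fun a i => (List.range (lam (k a) (TT (M a)) (DD (M a)) + 1)).map
      (fun l => ((2, (0, 0, 0), i, l) : Ds))) (upoly_qq hM hk).range ?_
    refine Poly.map (α := α × ℕ) (F := fun p l => ((2, (0, 0, 0), p.2, l) : Ds))
      (UPoly.range (UPoly.add (upoly_lam (hM.comp g1) (hk.comp g1)) (UPoly.const 1))) ?_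
    have r1 : Poly (fun q : (α × ℕ) × ℕ => q.1) := Poly.fst Poly.id
    exact Poly.pair (Poly.const 2) (Poly.pair (Poly.const (0, 0, 0))
      (Poly.pair (g2.comp r1) (Poly.snd Poly.id)))

theorem poly_inner {v w : α → Ds} (hv : Poly v) (hw : Poly w) :
    Poly (fun a => H633R2.inner (v a) (w a)) := by
  have hv1 : Poly (fun a => (v a).2.2.1) := Poly.fst (Poly.snd (Poly.snd hv))
  have hw1 : Poly (fun a => (w a).2.2.1) := Poly.fst (Poly.snd (Poly.snd hw))
  have hv2 : Poly (fun a => (v a).2.2.2) := Poly.snd (Poly.snd (Poly.snd hv))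
  have hw2 : Poly (fun a => (w a).2.2.2) := Poly.snd (Poly.snd (Poly.snd hw))
  unfold H633R2.inner
  exact Poly.and (Poly.decide_eq hv1 hw1) (Poly.xor (Poly.decide_eq hv2 (Poly.const 0))
    (Poly.decide_eq hw2 (Poly.const 0)))

theorem poly_outer {v w : α → Ds} (hv : Poly v) (hw : Poly w) :
    Poly (fun a => outer (v a) (w a)) := by
  have hv1 : Poly (fun a => (v a).1) := Poly.fst hv
  have hw1 : Poly (fun a => (w a).1) := Poly.fst hw
  have hv2 : Poly (fun a => (v a).2.1) := Poly.fst (Poly.snd hv)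
  have hw2 : Poly (fun a => (w a).2.1) := Poly.fst (Poly.snd hw)
  unfold outer
  have hv10 := Poly.decide_eq hv1 (Poly.const 0)
  have hw10 := Poly.decide_eq hw1 (Poly.const 0)
  have hv11 := Poly.decide_eq hv1 (Poly.const 1)
  have hw11 := Poly.decide_eq hw1 (Poly.const 1)
  have he := Poly.decide_eq hv2 hw2
  exact Poly.or (Poly.and hv10 (Poly.and hw10 (poly_shr hv2 hw2)))
    (Poly.or (Poly.and hv10 (Poly.and hw11 he)) (Poly.and hv11 (Poly.and hw10 he)))

theorem poly_gadj {v w : α → Ds} (hv : Poly v) (hw : Poly w) :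
    Poly (fun a => gadj (v a) (w a)) := by
  have hv1 : Poly (fun a => (v a).1) := Poly.fst hv
  have hw1 : Poly (fun a => (w a).1) := Poly.fst hw
  have hv2 : Poly (fun a => (v a).2.1) := Poly.fst (Poly.snd hv)
  have hw2 : Poly (fun a => (w a).2.1) := Poly.fst (Poly.snd hw)
  unfold gadj
  exact Poly.cond (Poly.decide_and (Poly.decide_eq hv1 hw1) (Poly.decide_eq hv2 hw2))
    (poly_inner hv hw) (poly_outer hv hw)

theorem poly_mat {V : α → List Ds} (hV : Poly V) : Poly (fun a => mat (V a)) := by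
  unfold mat
  refine Poly.map (F := fun a v => (V a).map (fun w => !(gadj v w))) hV ?_
  have h1 : Poly (fun p : α × Ds => p.1) := Poly.fst Poly.id
  refine Poly.map (α := α × Ds) (F := fun p w => !(gadj p.2 w)) (hV.comp h1) ?_
  exact Poly.not (poly_gadj (Poly.snd (Poly.fst Poly.id)) (Poly.snd Poly.id))

theorem poly_c0 {V : α → List Ds} (hV : Poly V) : Poly (fun a => c0 (V a)) := by
  unfold c0
  refine Poly.sum ?_
  refine Poly.map (F := fun a v => ((V a).filter (gadj v)).length) hV ?_
  have h1 : Poly (fun p : α × Ds => p.1) := Poly.fst Poly.id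
  refine Poly.length ?_
  refine Poly.filter (α := α × Ds) (p := fun p w => gadj p.2 w) (hV.comp h1) ?_
  exact poly_gadj (Poly.snd (Poly.fst Poly.id)) (Poly.snd Poly.id)

theorem poly_pm (hM : Poly M) (hk : UPoly k) :
    Poly (fun a => pm (k a) (TT (M a)) (DD (M a))) := by
  unfold pm
  have hk' := hk.toPoly
  have hT := (upoly_TT hM).toPoly
  refine Poly.add (Poly.mul (Poly.mul (Poly.const 2) (Poly.mul hk' hk')) (Poly.mul hT hT)) ?_
  refine Poly.sum ?_
  have h1 : Poly (fun p : α × Vr => p.1) := Poly.fst Poly.id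
  have h2 : Poly (fun p : α × Vr => p.2) := Poly.snd Poly.id
  refine Poly.map (F := fun a u => dg (k a) u * (if DD (M a) u 0 = true then 0 else 2))
    (poly_us hk) ?_
  refine Poly.mul (upoly_dg (hk.comp h1) h2).toPoly ?_
  exact Poly.ite (Poly.decide_bool (poly_DD (hM.comp h1) h2 (Poly.const 0))) (Poly.const 0)
    (Poly.const 2)

theorem poly_tgt (hM : Poly M) (hk : UPoly k) :
    Poly (fun a => tgt (k a) (TT (M a)) (DD (M a))) := by
  unfold tgt
  have hV : Poly (fun a => verts (k a) (TT (M a)) (DD (M a))) := poly_VV hM hk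
  have hq := (upoly_qq hM hk).toPoly
  have hK := Poly.sub (Poly.length hV) hq
  refine Poly.div (Poly.sub (Poly.add (Poly.add (Poly.mul hK (Poly.sub hK (Poly.const 1)))
    (Poly.mul (Poly.const 2) (Poly.mul (upoly_lam hM hk).toPoly hq))) (poly_pm hM hk))
      (poly_c0 hV)) (Poly.const 2)

end

theorem poly_red : Poly red := by
  have hM : Poly (fun x : List (List Bool) × ℕ => x.1) := Poly.fst Poly.id
  have hk : Poly (fun x : List (List Bool) × ℕ => x.2) := Poly.snd Poly.id
  have hk' : UPoly (fun x : List (List Bool) × ℕ => min x.2 x.1.length) :=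
    UPoly.of_le (Poly.min hk (Poly.length hM)) (UPoly.length hM) (fun _ => min_le_right _ _)
  have hV := poly_VV hM hk'
  exact Poly.cond (Poly.decide_le hk (Poly.length hM))
    (Poly.pair (poly_mat hV) (Poly.pair (Poly.sub (Poly.length hV) (upoly_qq hM hk').toPoly)
      (poly_tgt hM hk'))) (Poly.const _)

end Pool.Agent.NPC.H633
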