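import Pool.Agent.H633R2.GraphDefs

/-!
# Counting edges of induced subgraphs
-/

namespace Pool.Agent.H633R2

theorem two_mul_ncard {V : Type} [Fintype V] (G : SimpleGraph V) [DecidableRel G.Adj]
    (S : Finset V) :
    (2 * ((G.induce (S : Set V)).edgeSet.ncard : ℤ)) =
      ∑ i ∈ S, ∑ j ∈ S, (if G.Adj i j then (1 : ℤ) else 0) := by
  classical
  have h1 := (G.induce (S : Set V)).sum_degrees_eq_twice_card_edges
  have h2 : (G.induce (S : Set V)).edgeSet.ncard = (G.induce (S : Set V)).edgeFinset.card := by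
    rw [← SimpleGraph.coe_edgeFinset, Set.ncard_coe_finset]
  rw [h2]
  have h3 : (2 * ((G.induce (S : Set V)).edgeFinset.card : ℤ)) =
      ((∑ v, (G.induce (S : Set V)).degree v : ℕ) : ℤ) := by
    rw [h1]; push_cast; rfl
  rw [h3]
  push_cast
  have h4 : ∀ v : (S : Set V), ((G.induce (S : Set V)).degree v : ℤ) =
      ∑ j ∈ S, (if G.Adj v.1 j then (1 : ℤ) else 0) := by
    intro v
    have h5 : (G.induce (S : Set V)).degree v =
        (Finset.univ.filter (fun w : (S : Set V) => G.Adj v.1 w.1)).card := by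
      rw [← SimpleGraph.card_neighborFinset_eq_degree]
      congr 1
      ext w
      rw [SimpleGraph.mem_neighborFinset, Finset.mem_filter]
      simp
    have h6 := Finset.sum_set_coe (S : Set V) (f := fun j => if G.Adj v.1 j then (1 : ℤ) else 0)
    rw [Finset.toFinset_coe] at h6
    rw [h5, ← h6, Finset.card_filter]
    push_cast
    rfl
  have h7 := Finset.sum_set_coe (S : Set V)
    (f := fun i => ∑ j ∈ S, if G.Adj i j then (1 : ℤ) else 0)
  rw [Finset.toFinset_coe] at h7
  rw [← h7]
  exact Finset.sum_congr rfl (fun v _ => h4 v)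

end Pool.Agent.H633R2
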