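import Pool.Agent.H633R2.MWDefs

/-!
# Modular width: constructions
-/

namespace Pool.Agent.H633R2

theorem modularWidth_le {V : Type} {G : SimpleGraph V} {w : ℕ} (h : MWLE w G) :
    modularWidth G ≤ w := Nat.sInf_le h

/-- Splitting a graph along a set of vertices with homogeneous cross adjacency. -/
theorem MWLE.split {w : ℕ} {V : Type} {G : SimpleGraph V} (A : Set V) (b : Prop)
    (hb : ∀ x ∈ A, ∀ y ∉ A, (G.Adj x y ↔ b)) (h1 : MWLE w (G.induce A))
    (h2 : MWLE w (G.induce Aᶜ)) : MWLE w G := by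
  classical
  by_cases hbb : b
  · refine MWLE.iso ⟨⟨Equiv.Set.sumCompl A, ?_⟩⟩ (MWLE.join h1 h2)
    rintro (⟨x, hx⟩ | ⟨x, hx⟩) (⟨y, hy⟩ | ⟨y, hy⟩)
    · simp [joinG, Equiv.Set.sumCompl_apply_inl]
    · simp only [Equiv.Set.sumCompl_apply_inl, Equiv.Set.sumCompl_apply_inr, joinG, iff_true]
      exact (hb x hx y hy).2 hbb
    · simp only [Equiv.Set.sumCompl_apply_inl, Equiv.Set.sumCompl_apply_inr, joinG, iff_true]
      exact ((hb y hy x hx).2 hbb).symm
    · simp [joinG, Equiv.Set.sumCompl_apply_inr]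
  · refine MWLE.iso ⟨⟨Equiv.Set.sumCompl A, ?_⟩⟩ (MWLE.union h1 h2)
    rintro (⟨x, hx⟩ | ⟨x, hx⟩) (⟨y, hy⟩ | ⟨y, hy⟩)
    · simp [unionG, Equiv.Set.sumCompl_apply_inl]
    · simp only [Equiv.Set.sumCompl_apply_inl, Equiv.Set.sumCompl_apply_inr, unionG, iff_false]
      exact fun h => hbb ((hb x hx y hy).1 h)
    · simp only [Equiv.Set.sumCompl_apply_inl, Equiv.Set.sumCompl_apply_inr, unionG, iff_false]
      exact fun h => hbb ((hb y hy x hx).1 h.symm)
    · simp [unionG, Equiv.Set.sumCompl_apply_inr]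

/-- The iso between an induced subgraph on everything and the graph. -/
theorem MWLE.of_induce_univ {w : ℕ} {V : Type} {G : SimpleGraph V} {A : Set V}
    (hA : ∀ x, x ∈ A) (h : MWLE w (G.induce A)) : MWLE w G := by
  refine MWLE.iso ⟨⟨Equiv.subtypeUnivEquiv hA, ?_⟩⟩ h
  rintro ⟨x, hx⟩ ⟨y, hy⟩
  simp [Equiv.subtypeUnivEquiv]

/-- A graph whose vertices are coloured by `f` so that all pairs of differently coloured vertices
are adjacent (or all are non-adjacent), with all colour classes of width at most `w`. -/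
theorem MWLE.of_cross {w : ℕ} {ι : Type} (b : Prop) : ∀ (n : ℕ) {V : Type} (_ : Finite V)
    (_ : Nat.card V = n) (_ : Nonempty V) (G : SimpleGraph V)
    (f : V → ι) (_ : ∀ x y, f x ≠ f y → (G.Adj x y ↔ b))
    (_ : ∀ x : V, MWLE w (G.induce {y | f y = f x})), MWLE w G := by
  intro n
  induction n using Nat.strong_induction_on with
  | _ n ih =>
    intro V hV hn hne G f hf hG
    obtain ⟨x⟩ := hne
    by_cases hall : ∀ y, y ∈ {y | f y = f x}
    · exact MWLE.of_induce_univ hall (hG x)
    · push Not at hall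
      obtain ⟨z, hz⟩ := hall
      refine MWLE.split {y | f y = f x} b ?_ (hG x) ?_
      · intro a ha c hc
        refine hf a c ?_
        simp only [Set.mem_ofPred_eq] at ha hc
        rw [ha]
        exact fun h => hc h.symm
      · have hlt : Nat.card ↑({y | f y = f x}ᶜ : Set V) < n := by
          rw [← hn]
          have : ({y | f y = f x}ᶜ : Set V) ⊂ Set.univ := by
            rw [Set.ssubset_univ_iff]
            intro h
            have : x ∈ ({y | f y = f x}ᶜ : Set V) := by rw [h]; trivial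
            exact this rfl
          rw [Nat.card_coe_set_eq, ← Set.ncard_univ]
          exact Set.ncard_lt_ncard this (Set.toFinite _)
        refine ih _ hlt inferInstance rfl ⟨⟨z, hz⟩⟩ _ (fun v => f v.1) ?_ ?_
        · rintro ⟨a, ha⟩ ⟨c, hc⟩ hac
          exact hf a c hac
        · rintro ⟨a, ha⟩
          refine MWLE.iso ⟨⟨⟨fun v => ⟨⟨v.1, ?_⟩, v.2⟩, fun v => ⟨v.1.1, v.2⟩, ?_, ?_⟩, ?_⟩⟩ (hG a)
          · intro h
            apply ha
            have h1 := v.2
            simp only [Set.mem_ofPred_eq] at h1 h ⊢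
            rw [← h1, h]
          · intro v; rfl
          · intro v; rfl
          · intro v v'
            rfl

/-- Any graph on a one-element type is a single vertex. -/
theorem MWLE.of_unique {w : ℕ} {V : Type} (G : SimpleGraph V) (x : V) (hx : ∀ y, y = x) :
    MWLE w G := by
  refine MWLE.iso ⟨⟨⟨fun _ => x, fun _ => (), fun _ => rfl, fun y => (hx y).symm⟩, ?_⟩⟩ MWLE.single
  intro a b
  simp

/-- Complete (or edgeless) graphs on finite nonempty types. -/
theorem MWLE.of_homog {w : ℕ} {V : Type} [Finite V] [Nonempty V] (G : SimpleGraph V) (b : Prop)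
    (h : ∀ x y, x ≠ y → (G.Adj x y ↔ b)) : MWLE w G := by
  refine MWLE.of_cross b _ inferInstance rfl inferInstance G id h fun x => ?_
  exact MWLE.of_unique _ ⟨x, rfl⟩ (fun y => Subtype.ext y.2)

/-- Substitution, in terms of a partition of the vertices into modules. -/
theorem MWLE.of_modules {w : ℕ} {ι V : Type} [Finite ι] [Nonempty ι] (hw : Nat.card ι ≤ w)
    (H : SimpleGraph ι) (G : SimpleGraph V) (f : V → ι)
    (hf : ∀ x y, f x ≠ f y → (G.Adj x y ↔ H.Adj (f x) (f y)))
    (hG : ∀ i, MWLE w (G.induce {y | f y = i})) : MWLE w G := by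
  have h1 := MWLE.subst hw H (V := fun i => {y | f y = i}) (fun i => G.induce {y | f y = i}) hG
  refine MWLE.iso ⟨⟨⟨fun v => v.2.1, fun v => ⟨f v, ⟨v, rfl⟩⟩, ?_, ?_⟩, ?_⟩⟩ h1
  · rintro ⟨i, ⟨v, hv⟩⟩
    simp only [Set.mem_ofPred_eq] at hv
    subst hv
    rfl
  · intro v; rfl
  · rintro ⟨i, ⟨v, hv⟩⟩ ⟨j, ⟨v', hv'⟩⟩
    simp only [Set.mem_ofPred_eq] at hv hv'
    subst hv hv'
    simp only [Equiv.coe_fn_mk, substG]
    constructor
    · intro h
      by_cases hne : f v = f v'
      · refine Or.inr ⟨hne, ?_⟩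
        have key : ∀ (i j : ι) (hij : i = j) (x : {y | f y = i}) (y : {y | f y = j}),
            G.Adj x.1 y.1 → (G.induce {y | f y = j}).Adj (hij ▸ x) y := by
          rintro i j rfl x y h
          exact h
        exact key _ _ hne _ _ h
      · exact Or.inl ((hf v v' hne).1 h)
    · rintro (h | ⟨hne, h⟩)
      · have : f v ≠ f v' := h.ne
        exact (hf v v' this).2 h
      · have key : ∀ (i j : ι) (hij : i = j) (x : {y | f y = i}) (y : {y | f y = j}),
            (G.induce {y | f y = j}).Adj (hij ▸ x) y → G.Adj x.1 y.1 := by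
          rintro i j rfl x y h
          exact h
        exact key _ _ hne _ _ h

end Pool.Agent.H633R2
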