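import Pool.Agent.H633R2.DkSSol
import Pool.Agent.H633R2.MW
import Pool.Agent.H633R2.Graphs

/-!
# The reduction from Clique to Densest k-Subgraph
-/

namespace Pool.Agent.H633R2

/-- The matrix of the dense graph. -/
def mat (V : List Ds) : List (List Bool) := V.map (fun v => V.map (fun w => !(gadj v w)))

theorem mat_length (V : List Ds) : (mat V).length = V.length := by simp [mat]

theorem entry_mat (V : List Ds) {i j : ℕ} (hi : i < V.length) (hj : j < V.length) :
    entry (mat V) i j = !(gadj V[i] V[j]) := by
  unfold entry mat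
  have h1 : (V.map (fun v => V.map (fun w => !(gadj v w)))).getD i [] =
      V.map (fun w => !(gadj V[i] w)) := by
    rw [List.getD_eq_getElem _ _ (by simpa using hi), List.getElem_map]
  rw [h1, List.getD_eq_getElem _ _ (by simpa using hj), List.getElem_map]

/-- Sums over indices of the list. -/
theorem sum_idx (V : List Ds) (f : Ds → ℤ) :
    ∑ i : Fin V.length, f V[i] = (V.map f).sum := by
  exact Fin.sum_univ_fun_getElem V f

section

variable {k t : ℕ} {D : Vr → ℕ → Bool}

theorem tot_eq_idx (f : Ds → ℤ) :
    tot k t D f = ∑ i : Fin (verts k t D).length, f (verts k t D)[i] := by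
  rw [sum_idx, sum_verts]

open Classical in
/-- Indicator function of a set of indices. -/
noncomputable def sOf (V : List Ds) (S : Finset (Fin V.length)) (v : Ds) : ℤ :=
  if ∃ i ∈ S, V[i] = v then 1 else 0

theorem sOf_get {V : List Ds} (hV : V.Nodup) (S : Finset (Fin V.length)) (i : Fin V.length) :
    sOf V S V[i] = if i ∈ S then 1 else 0 := by
  unfold sOf
  by_cases h : i ∈ S
  · rw [if_pos h, if_pos ⟨i, h, rfl⟩]
  · rw [if_neg h, if_neg]
    rintro ⟨j, hj, hij⟩
    have : j = i := by
      apply Fin.ext
      exact (List.Nodup.getElem_inj_iff hV).1 hij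
    exact h (this ▸ hj)

theorem sOf_zero_one (V : List Ds) (S : Finset (Fin V.length)) (v : Ds) :
    sOf V S v = 0 ∨ sOf V S v = 1 := by
  unfold sOf
  split_ifs <;> simp

theorem tot_sOf (S : Finset (Fin (verts k t D).length)) :
    tot k t D (sOf (verts k t D) S) = S.card := by
  rw [tot_eq_idx]
  simp only [sOf_get verts_nodup]
  simp

theorem e2_sOf (S : Finset (Fin (verts k t D).length)) :
    e2 k t D (sOf (verts k t D) S) =
      ∑ i ∈ S, ∑ j ∈ S, ind (gadj (verts k t D)[i] (verts k t D)[j]) := by
  unfold e2
  simp only [tot_eq_idx, sOf_get verts_nodup]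
  rw [← Finset.sum_filter_add_sum_filter_not Finset.univ (fun i => i ∈ S)]
  have h1 : ∑ i ∈ Finset.univ.filter (fun i => ¬ i ∈ S), ∑ j : Fin (verts k t D).length,
      (if i ∈ S then (1 : ℤ) else 0) * (if j ∈ S then 1 else 0) *
        ind (gadj (verts k t D)[i] (verts k t D)[j]) = 0 := by
    refine Finset.sum_eq_zero fun i hi => ?_
    rw [Finset.mem_filter] at hi
    simp [hi.2]
  rw [h1, add_zero]
  have h2 : Finset.univ.filter (fun i => i ∈ S) = S := by ext; simp
  rw [h2]
  refine Finset.sum_congr rfl fun i hi => ?_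
  rw [← Finset.sum_filter_add_sum_filter_not Finset.univ (fun i => i ∈ S), h2]
  have h3 : ∑ j ∈ Finset.univ.filter (fun i => ¬ i ∈ S),
      (if i ∈ S then (1 : ℤ) else 0) * (if j ∈ S then 1 else 0) *
        ind (gadj (verts k t D)[i] (verts k t D)[j]) = 0 := by
    refine Finset.sum_eq_zero fun j hj => ?_
    rw [Finset.mem_filter] at hj
    simp [hj.2]
  rw [h3, add_zero]
  refine Finset.sum_congr rfl fun j hj => ?_
  simp [hi, hj]

theorem e2_one : e2 k t D (fun _ => 1) =
    ∑ i : Fin (verts k t D).length, ∑ j : Fin (verts k t D).length,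
      ind (gadj (verts k t D)[i] (verts k t D)[j]) := by
  unfold e2
  simp only [tot_eq_idx, one_mul]

/-- The dense graph on the indices of the list of descriptors. -/
def denseG (V : List Ds) : SimpleGraph (Fin V.length) where
  Adj i j := i ≠ j ∧ gadj V[i] V[j] = false
  symm := ⟨fun i j h => ⟨h.1.symm, by rw [gadj_comm]; exact h.2⟩⟩
  loopless := ⟨fun _ h => h.1 rfl⟩

instance (V : List Ds) : DecidableRel (denseG V).Adj := fun i j =>
  inferInstanceAs (Decidable (i ≠ j ∧ gadj V[i] V[j] = false))

theorem gadj_self (v : Ds) : gadj v v = false := by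
  unfold gadj inner
  simp

theorem dense_edges (V : List Ds) (S : Finset (Fin V.length)) :
    (2 * (((denseG V).induce (S : Set (Fin V.length))).edgeSet.ncard : ℤ)) =
      (S.card : ℤ) ^ 2 - S.card - ∑ i ∈ S, ∑ j ∈ S, ind (gadj V[i] V[j]) := by
  rw [two_mul_ncard]
  have h1 : ∀ i ∈ S, ∑ j ∈ S, (if (denseG V).Adj i j then (1 : ℤ) else 0) =
      (S.card : ℤ) - 1 - ∑ j ∈ S, ind (gadj V[i] V[j]) := by
    intro i hi
    have h2 : ∀ j ∈ S, (if (denseG V).Adj i j then (1 : ℤ) else 0) =
        1 - (if j = i then 1 else 0) - ind (gadj V[i] V[j]) := by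
      intro j _
      by_cases h : j = i
      · subst h
        have : ¬ (denseG V).Adj j j := (denseG V).loopless.irrefl j
        rw [if_neg this, if_pos rfl, gadj_self]
        simp [ind]
      · by_cases h3 : gadj V[i] V[j] = true
        · have : ¬ (denseG V).Adj i j := fun h4 => by
            have := h4.2
            rw [h3] at this
            simp at this
          rw [if_neg this, if_neg h, h3]
          simp [ind]
        · have h3' : gadj V[i] V[j] = false := by simpa using h3
          have : (denseG V).Adj i j := ⟨fun h4 => h h4.symm, h3'⟩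
          rw [if_pos this, if_neg h, h3']
          simp [ind]
    rw [Finset.sum_congr rfl h2, Finset.sum_sub_distrib, Finset.sum_sub_distrib,
      Finset.sum_ite_eq' S i, if_pos hi]
    simp
  rw [Finset.sum_congr rfl h1, Finset.sum_sub_distrib, Finset.sum_const, nsmul_eq_mul]
  ring

theorem qq_le : qq k t ≤ (verts k t D).length := by
  have h1 : ((verts k t D).length : ℤ) = tot k t D (fun _ => 1) := by
    rw [← sum_verts]; simp
  have h2 : (qq k t : ℤ) ≤ tot k t D (fun _ => 1) := by
    unfold tot
    have a1 : (0 : ℤ) ≤ ∑ u ∈ (us k).toFinset, ∑ x ∈ Finset.range t,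
        ∑ l ∈ Finset.range (W k t D u x + 1), (1 : ℤ) :=
      Finset.sum_nonneg fun _ _ => Finset.sum_nonneg fun _ _ => Finset.sum_nonneg fun _ _ => by
        norm_num
    have a2 : (0 : ℤ) ≤ ∑ u ∈ (us k).toFinset, ∑ r ∈ Finset.range (rho k t D u), (1 : ℤ) :=
      Finset.sum_nonneg fun _ _ => Finset.sum_nonneg fun _ _ => by norm_num
    have a3 : ∑ i ∈ Finset.range (qq k t), ∑ l ∈ Finset.range (lam k t D + 1), (1 : ℤ) =
        qq k t * (lam k t D + 1) := by simp
    rw [a3]
    have : (0 : ℤ) ≤ lam k t D := by positivity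
    have : (0 : ℤ) ≤ qq k t := by positivity
    nlinarith
  omega

/-- The constant `phimax` as a natural number. -/
def pm (k t : ℕ) (D : Vr → ℕ → Bool) : ℕ :=
  2 * (k * k) * (t * t) + ((us k).map (fun u => dg k u * (if D u 0 = true then 0 else 2))).sum

theorem pm_eq : (pm k t D : ℤ) = phimax k t D := by
  unfold pm phimax
  rw [← sum_us]
  have : ((((us k).map (fun u => dg k u * (if D u 0 = true then 0 else 2))).sum : ℕ) : ℤ) =
      ((us k).map (fun u => (dg k u : ℤ) * pen (D u) 0)).sum := by
    rw [Nat.cast_list_sum, List.map_map]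
    congr 1
    apply List.map_congr_left
    intro u _
    simp only [Function.comp]
    unfold pen
    by_cases h : D u 0 = true <;> simp [h]
  rw [Nat.cast_add, this]
  push_cast
  ring

/-- The count `C0` of adjacent ordered pairs. -/
def c0 (V : List Ds) : ℕ := (V.map (fun v => (V.filter (gadj v)).length)).sum

theorem sum_ind (p : Ds → Bool) (l : List Ds) :
    (l.map (fun w => ind (p w))).sum = ((l.filter p).length : ℤ) := by
  induction l with
  | nil => simp
  | cons a l ih =>
    rw [List.map_cons, List.sum_cons, ih, List.filter_cons]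
    cases h : p a <;> simp [ind]
    ring

theorem c0_eq : (c0 (verts k t D) : ℤ) = e2 k t D (fun _ => 1) := by
  rw [e2_one]
  unfold c0
  rw [Nat.cast_list_sum, List.map_map]
  have : ∀ i : Fin (verts k t D).length, ∑ j : Fin (verts k t D).length,
      ind (gadj (verts k t D)[i] (verts k t D)[j]) =
      (((verts k t D).filter (gadj (verts k t D)[i])).length : ℤ) := by
    intro i
    rw [sum_idx (verts k t D) (fun w => ind (gadj (verts k t D)[i] w)), sum_ind]
  rw [Finset.sum_congr rfl (fun i _ => this i)]
  exact (sum_idx (verts k t D) (fun v => (((verts k t D).filter (gadj v)).length : ℤ))).symm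

/-- The target number of edges. -/
def tgt (k t : ℕ) (D : Vr → ℕ → Bool) : ℕ :=
  (((verts k t D).length - qq k t) * ((verts k t D).length - qq k t - 1) +
    2 * (lam k t D * qq k t) + pm k t D - c0 (verts k t D)) / 2

/-- The integer version of twice the target. -/
theorem two_tgt : (2 * (tgt k t D : ℤ)) =
    (((verts k t D).length - qq k t : ℕ) : ℤ) ^ 2 - ((verts k t D).length - qq k t : ℕ) +
      2 * lam k t D * qq k t + phimax k t D - e2 k t D (fun _ => 1) := by
  set K := (verts k t D).length - qq k t with hK
  have hKN : K ≤ (verts k t D).length := Nat.sub_le _ _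
  -- evenness of the count
  obtain ⟨e, he⟩ : ∃ e : ℕ, (e2 k t D (fun _ => 1)) =
      ((verts k t D).length : ℤ) ^ 2 - (verts k t D).length - 2 * e := by
    refine ⟨((denseG (verts k t D)).induce
      ((Finset.univ : Finset (Fin (verts k t D).length)) : Set _)).edgeSet.ncard, ?_⟩
    rw [dense_edges, e2_one]
    simp
  obtain ⟨m, hm⟩ : ∃ m : ℤ, phimax k t D = 2 * m := by
    unfold phimax
    refine ⟨(k : ℤ) ^ 2 * t ^ 2 +
      ∑ u ∈ (us k).toFinset, (dg k u : ℤ) * (if D u 0 = true then 0 else 1), ?_⟩
    rw [mul_add, Finset.mul_sum]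
    congr 1
    · ring
    · refine Finset.sum_congr rfl fun u _ => ?_
      unfold pen
      by_cases h : D u 0 = true
      · simp [h]
      · simp [h]
        ring
  -- nonnegativity
  have hnn : 0 ≤ (K : ℤ) ^ 2 - K + 2 * lam k t D * qq k t + phimax k t D -
      e2 k t D (fun _ => 1) := by
    obtain ⟨S, _, hS⟩ := Finset.exists_subset_card_eq
      (s := (Finset.univ : Finset (Fin (verts k t D).length))) (n := K) (by simpa using hKN)
    have h1 := dense_edges (verts k t D) S
    have h2 := main_bound (k := k) (t := t) (D := D) (sOf_zero_one (verts k t D) S)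
    have h3 := phi_le k t D (fun u => (Tc k t D (sOf (verts k t D) S) u).card)
      (fun u _ => Tc_card_le _ _)
    have h4 : tot k t D (fun _ => 1) - tot k t D (sOf (verts k t D) S) = qq k t := by
      rw [tot_sOf, hS, tot_eq_idx]
      have := qq_le (k := k) (t := t) (D := D)
      simp
      omega
    rw [h4, e2_sOf] at h2
    rw [hS] at h1
    have h5 : (0 : ℤ) ≤ 2 * (((denseG (verts k t D)).induce
      (S : Set (Fin (verts k t D).length))).edgeSet.ncard : ℤ) := by positivity
    linarith
  have hsq : ∀ a : ℕ, ((a * (a - 1) : ℕ) : ℤ) = (a : ℤ) ^ 2 - a := by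
    intro a
    cases a with
    | zero => simp
    | succ a => rw [Nat.add_sub_cancel]; push_cast; ring
  have hle : c0 (verts k t D) ≤ K * (K - 1) + 2 * (lam k t D * qq k t) + pm k t D := by
    have : (c0 (verts k t D) : ℤ) ≤ ((K * (K - 1) + 2 * (lam k t D * qq k t) + pm k t D : ℕ) : ℤ) := by
      rw [Nat.cast_add, Nat.cast_add, hsq K, c0_eq, pm_eq, Nat.cast_mul, Nat.cast_mul]
      push_cast
      linarith
    exact_mod_cast this
  have hval : ((K * (K - 1) + 2 * (lam k t D * qq k t) + pm k t D - c0 (verts k t D) : ℕ) : ℤ) =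
      (K : ℤ) ^ 2 - K + 2 * lam k t D * qq k t + phimax k t D - e2 k t D (fun _ => 1) := by
    rw [Nat.cast_sub hle, Nat.cast_add, Nat.cast_add, hsq, pm_eq, c0_eq]
    push_cast
    ring
  have heven : ∃ r : ℤ, ((K * (K - 1) + 2 * (lam k t D * qq k t) + pm k t D -
      c0 (verts k t D) : ℕ) : ℤ) = 2 * r := by
    rw [hval, hm, he]
    have : ∀ a : ℕ, ∃ r : ℤ, (a : ℤ) ^ 2 - a = 2 * r := by
      intro a
      obtain ⟨r, hr⟩ := Int.even_mul_pred_self (a : ℤ)
      exact ⟨r, by linarith [hr, show (a : ℤ) * (a - 1) = (a : ℤ) ^ 2 - a by ring]⟩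
    obtain ⟨r1, h1⟩ := this K
    obtain ⟨r2, h2⟩ := this (verts k t D).length
    exact ⟨r1 + lam k t D * qq k t + m - r2 + e, by rw [h1, h2]; ring⟩
  unfold tgt
  rw [← hK]
  obtain ⟨r, hr⟩ := heven
  rw [← hval]
  set A := K * (K - 1) + 2 * (lam k t D * qq k t) + pm k t D - c0 (verts k t D)
  omega

/-- Correctness of the construction. -/
theorem dense_iff (hD : ∀ u x, D u x = true → x % 2 = 0) :
    (∃ S : Finset (Fin (verts k t D).length), S.card ≤ (verts k t D).length - qq k t ∧
      tgt k t D ≤ ((denseG (verts k t D)).induce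
        (S : Set (Fin (verts k t D).length))).edgeSet.ncard) ↔
    ∃ x : Vr → ℕ, (∀ u ∈ us k, x u ≤ t) ∧ Sol k t D x := by
  have hq := qq_le (k := k) (t := t) (D := D)
  set K := (verts k t D).length - qq k t with hK
  have hKN : K ≤ (verts k t D).length := Nat.sub_le _ _
  have h2t := two_tgt (k := k) (t := t) (D := D)
  rw [← hK] at h2t
  constructor
  · rintro ⟨S, hS, hT⟩
    obtain ⟨S', hSS', _, hS'⟩ := Finset.exists_subsuperset_card_eq (Finset.subset_univ S) hS
      (by simpa using hKN)
    refine ⟨fun u => (Tc k t D (sOf (verts k t D) S') u).card, fun u _ => Tc_card_le _ _, ?_⟩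
    rw [← phi_eq_max_iff k t D hD _ (fun u _ => Tc_card_le _ _)]
    refine le_antisymm (phi_le k t D _ (fun u _ => Tc_card_le _ _)) ?_
    have h1 := dense_edges (verts k t D) S
    have h1' := dense_edges (verts k t D) S'
    have h2 := main_bound (k := k) (t := t) (D := D) (sOf_zero_one (verts k t D) S')
    have h4 : tot k t D (fun _ => 1) - tot k t D (sOf (verts k t D) S') = qq k t := by
      rw [tot_sOf, hS', tot_eq_idx]
      simp
      omega
    rw [h4, e2_sOf] at h2
    rw [hS'] at h1'
    have hmono : (2 * (((denseG (verts k t D)).induce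
        (S : Set (Fin (verts k t D).length))).edgeSet.ncard : ℤ)) ≤
        2 * (((denseG (verts k t D)).induce
        (S' : Set (Fin (verts k t D).length))).edgeSet.ncard : ℤ) := by
      rw [two_mul_ncard, two_mul_ncard]
      refine (Finset.sum_le_sum fun i _ => ?_).trans
        (Finset.sum_le_sum_of_subset_of_nonneg hSS' fun i _ _ =>
          Finset.sum_nonneg fun j _ => by split_ifs <;> norm_num)
      exact Finset.sum_le_sum_of_subset_of_nonneg hSS' fun j _ _ => by split_ifs <;> norm_num
    have hT' : (2 * (tgt k t D : ℤ)) ≤ 2 * (((denseG (verts k t D)).induce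
        (S : Set (Fin (verts k t D).length))).edgeSet.ncard : ℤ) := by
      have : (tgt k t D : ℤ) ≤ (((denseG (verts k t D)).induce
        (S : Set (Fin (verts k t D).length))).edgeSet.ncard : ℤ) := by exact_mod_cast hT
      linarith
    linarith
  · rintro ⟨x, hx, hsol⟩
    have hxs : ∑ u ∈ (us k).toFinset, x u ≤ (us k).length * t := by
      have h1 := Finset.sum_le_card_nsmul (us k).toFinset x t
        (fun u hu => hx u (List.mem_toFinset.1 hu))
      rw [List.toFinset_card_of_nodup (us_nodup k)] at h1
      simpa using h1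
    set m := qq k t - ∑ u ∈ (us k).toFinset, x u with hm
    have hmq : m ≤ qq k t := Nat.sub_le _ _
    have hsum : ∑ u ∈ (us k).toFinset, x u + m = qq k t := by
      have : (us k).length * t ≤ qq k t := by unfold qq; omega
      omega
    obtain ⟨hv1, hv2⟩ := keep_value (k := k) (t := t) (D := D) hx hmq
    have hv3 : tot k t D (fun _ => 1) - tot k t D (keep x m) = qq k t := by
      rw [hv2]; exact_mod_cast hsum
    have hphi := (phi_eq_max_iff k t D hD x (fun u hu => hx u (List.mem_toFinset.1 hu))).2 hsol
    classical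
    set S : Finset (Fin (verts k t D).length) :=
      Finset.univ.filter (fun i => keep x m (verts k t D)[i] = 1) with hS
    have hss : ∀ i : Fin (verts k t D).length, sOf (verts k t D) S (verts k t D)[i] =
        keep x m (verts k t D)[i] := by
      intro i
      rw [sOf_get verts_nodup]
      by_cases h : keep x m (verts k t D)[i] = 1
      · rw [if_pos (by rw [hS, Finset.mem_filter]; exact ⟨Finset.mem_univ _, h⟩), h]
      · rw [if_neg (by rw [hS, Finset.mem_filter]; exact fun h' => h h'.2)]
        rcases keep_zero_one x m (verts k t D)[i] with h' | h'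
        · exact h'.symm
        · exact absurd h' h
    have e1 : tot k t D (sOf (verts k t D) S) = tot k t D (keep x m) := by
      rw [tot_eq_idx, tot_eq_idx]
      exact Finset.sum_congr rfl fun i _ => hss i
    have e2' : e2 k t D (sOf (verts k t D) S) = e2 k t D (keep x m) := by
      unfold e2
      simp only [tot_eq_idx]
      refine Finset.sum_congr rfl fun i _ => Finset.sum_congr rfl fun j _ => ?_
      rw [hss i, hss j]
    have hcard : S.card = K := by
      have h1 := tot_sOf (k := k) (t := t) (D := D) S
      rw [e1] at h1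
      have h2 : tot k t D (fun _ => 1) = (verts k t D).length := by
        rw [tot_eq_idx]; simp
      rw [h2, h1] at hv3
      omega
    refine ⟨S, hcard.le, ?_⟩
    have h1 := dense_edges (verts k t D) S
    rw [← e2_sOf, e2', hcard] at h1
    rw [hv3, hphi] at hv1
    have : (2 * (tgt k t D : ℤ)) ≤ 2 * (((denseG (verts k t D)).induce
        (S : Set (Fin (verts k t D).length))).edgeSet.ncard : ℤ) := by
      rw [h1, h2t]
      linarith
    omega

end

end Pool.Agent.H633R2
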