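import Pool.Agent.H633R2.DkSBound

/-!
# Solutions of the system are cliques
-/

namespace Pool.Agent.H633R2

/-- The common right-hand side `2 ((n+2)^2 - 1)` of the equations. -/
def tt (n : ℕ) : ℕ := 2 * ((n + 1) * (n + 3))

/-- The domains of the variables. -/
def dom (n : ℕ) (E : ℕ → ℕ → Bool) (u : Vr) (x : ℕ) : Bool :=
  decide (x % 2 = 0) &&
  (bif decide (u.1 = 0) then
    (decide (x / 2 / (n + 2) < n) && (decide (x / 2 % (n + 2) < n) &&
      (bif decide (u.2.1 = u.2.2) then decide (x / 2 / (n + 2) = x / 2 % (n + 2))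
        else E (x / 2 / (n + 2)) (x / 2 % (n + 2)))))
   else (bif (decide (u.1 = 1) || decide (u.1 = 4)) then decide (x / 2 < n + 2)
   else decide (x / 2 % (n + 2) = 0)))

theorem dom_even {n : ℕ} {E : ℕ → ℕ → Bool} {u : Vr} {x : ℕ} (h : dom n E u x = true) :
    x % 2 = 0 := by
  unfold dom at h
  rw [Bool.and_eq_true, decide_eq_true_eq] at h
  exact h.1

theorem yv0 {k : ℕ} (x : Vr → ℤ) {i j : ℕ} (hi : i < k) (hj : j < k) :
    yv k x (0, i, j) = x (0, i, j) + x (1, i, j) + x (3, i, 0) := by
  unfold yv
  have h1 : ∀ u ∈ (us k).toFinset, (if inc u (0, i, j) = true then (1 : ℤ) else 0) * x u =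
      if inc u (0, i, j) = true then x u else 0 := by
    intro u _
    split_ifs <;> simp
  rw [Finset.sum_congr rfl h1, ← Finset.sum_filter]
  have h2 : (us k).toFinset.filter (fun u => inc u (0, i, j) = true) =
      {(0, i, j), (1, i, j), (3, i, 0)} := by
    ext ⟨c, a, b⟩
    rw [Finset.mem_filter, List.mem_toFinset, mem_us]
    simp only [okV, inc, Bool.or_eq_true, Bool.and_eq_true, decide_eq_true_eq, Prod.mk.injEq,
      Finset.mem_insert, Finset.mem_singleton,
      true_and, and_true, and_self, true_or, or_true, false_or, or_false, false_and, and_false,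
      or_self]
    omega
  rw [h2, Finset.sum_insert (by simp), Finset.sum_insert (by simp), Finset.sum_singleton]
  ring

theorem yv1 {k : ℕ} (x : Vr → ℤ) {i j : ℕ} (hi : i < k) (hj : j < k) :
    yv k x (1, i, j) = x (0, i, j) + x (2, i, j) + x (4, 0, j) := by
  unfold yv
  have h1 : ∀ u ∈ (us k).toFinset, (if inc u (1, i, j) = true then (1 : ℤ) else 0) * x u =
      if inc u (1, i, j) = true then x u else 0 := by
    intro u _
    split_ifs <;> simp
  rw [Finset.sum_congr rfl h1, ← Finset.sum_filter]
  have h2 : (us k).toFinset.filter (fun u => inc u (1, i, j) = true) =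
      {(0, i, j), (2, i, j), (4, 0, j)} := by
    ext ⟨c, a, b⟩
    rw [Finset.mem_filter, List.mem_toFinset, mem_us]
    simp only [okV, inc, Bool.or_eq_true, Bool.and_eq_true, decide_eq_true_eq, Prod.mk.injEq,
      Finset.mem_insert, Finset.mem_singleton,
      true_and, and_true, and_self, true_or, or_true, false_or, or_false, false_and, and_false,
      or_self]
    omega
  rw [h2, Finset.sum_insert (by simp), Finset.sum_insert (by simp), Finset.sum_singleton]
  ring

/-- Digit argument. -/
theorem digits {n a b c c' : ℕ} (hb : b < n) (hc : c < n + 2)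
    (h : (n + 2) * a + b + c + (n + 2) * c' = (n + 1) * (n + 3)) :
    a + c' = n + 1 ∧ b + c = n + 1 := by
  have h1 : (n + 2) * (a + c') + (b + c) = (n + 2) * (n + 1) + (n + 1) := by nlinarith
  have h2 : a + c' = n + 1 := by
    rcases lt_trichotomy (a + c') (n + 1) with h3 | h3 | h3
    · have : (n + 2) * (a + c') + (n + 2) ≤ (n + 2) * (n + 1) := by nlinarith
      omega
    · exact h3
    · have : (n + 2) * (n + 1) + (n + 2) ≤ (n + 2) * (a + c') := by nlinarith
      omega
  refine ⟨h2, ?_⟩
  rw [h2] at h1
  omega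

theorem sol_iff (n k : ℕ) (E : ℕ → ℕ → Bool) :
    (∃ x : Vr → ℕ, (∀ u ∈ us k, x u ≤ tt n) ∧ Sol k (tt n) (dom n E) x) ↔
      ∃ a : ℕ → ℕ, (∀ i < k, a i < n) ∧ ∀ i < k, ∀ j < k, i ≠ j → E (a i) (a j) = true := by
  constructor
  · rintro ⟨x, _, hy, hD⟩
    have key : ∀ i < k, ∀ j < k, ∃ a b, x (0, i, j) = 2 * ((n + 2) * a + b) ∧ a < n ∧ b < n ∧
        (i = j → a = b) ∧ (i ≠ j → E a b = true) ∧
        a + x (3, i, 0) / 2 / (n + 2) = n + 1 ∧ b + x (4, 0, j) / 2 = n + 1 := by
      intro i hi j hj
      have e0 := hy (0, i, j) (mem_es.2 ⟨Or.inl rfl, hi, hj⟩)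
      have e1 := hy (1, i, j) (mem_es.2 ⟨Or.inr rfl, hi, hj⟩)
      rw [yv0 _ hi hj] at e0
      rw [yv1 _ hi hj] at e1
      have d0 := hD (0, i, j) (mem_us.2 (Or.inl ⟨by norm_num, hi, hj⟩))
      have d1 := hD (1, i, j) (mem_us.2 (Or.inl ⟨by norm_num, hi, hj⟩))
      have d2 := hD (2, i, j) (mem_us.2 (Or.inl ⟨by norm_num, hi, hj⟩))
      have d3 := hD (3, i, 0) (mem_us.2 (Or.inr (Or.inl ⟨rfl, hi, rfl⟩)))
      have d4 := hD (4, 0, j) (mem_us.2 (Or.inr (Or.inr ⟨rfl, rfl, hj⟩)))
      have e0' : x (0, i, j) + x (1, i, j) + x (3, i, 0) = 2 * ((n + 1) * (n + 3)) := by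
        unfold tt at e0
        exact_mod_cast e0
      have e1' : x (0, i, j) + x (2, i, j) + x (4, 0, j) = 2 * ((n + 1) * (n + 3)) := by
        unfold tt at e1
        exact_mod_cast e1
      simp only [dom, Bool.and_eq_true, decide_eq_true_eq] at d0 d1 d2 d3 d4
      obtain ⟨p0, d0⟩ := d0
      obtain ⟨p1, d1⟩ := d1
      obtain ⟨p2, d2⟩ := d2
      obtain ⟨p3, d3⟩ := d3
      obtain ⟨p4, d4⟩ := d4
      simp at d1 d2 d3 d4
      simp only [decide_true, cond_true, Bool.and_eq_true, decide_eq_true_eq] at d0
      obtain ⟨q1, q2, q3⟩ := d0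
      set y := x (0, i, j) / 2 with hy'
      have r0 : x (0, i, j) = 2 * y := by omega
      have r1 : y = (n + 2) * (y / (n + 2)) + y % (n + 2) := (Nat.div_add_mod y (n + 2)).symm
      have r2 : x (2, i, j) = 2 * ((n + 2) * (x (2, i, j) / 2 / (n + 2))) := by
        have := Nat.div_add_mod (x (2, i, j) / 2) (n + 2)
        omega
      have r3 : x (3, i, 0) = 2 * ((n + 2) * (x (3, i, 0) / 2 / (n + 2))) := by
        have := Nat.div_add_mod (x (3, i, 0) / 2) (n + 2)
        omega
      have s0 := digits (n := n) (a := y / (n + 2)) (b := y % (n + 2)) (c := x (1, i, j) / 2)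
        (c' := x (3, i, 0) / 2 / (n + 2)) q2 d1 (by omega)
      have s1 := digits (n := n) (a := y / (n + 2)) (b := y % (n + 2)) (c := x (4, 0, j) / 2)
        (c' := x (2, i, j) / 2 / (n + 2)) q2 d4 (by omega)
      refine ⟨y / (n + 2), y % (n + 2), by omega, q1, q2, ?_, ?_, s0.1, s1.2⟩
      · intro h
        rw [decide_eq_true h, cond_true, decide_eq_true_eq] at q3
        exact q3
      · intro h
        rw [decide_eq_false h, cond_false] at q3
        exact q3
    refine ⟨fun i => n + 1 - x (3, i, 0) / 2 / (n + 2), ?_, ?_⟩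
    · intro i hi
      obtain ⟨a, b, _, h1, _, _, _, h2, _⟩ := key i hi i hi
      simp only
      omega
    · intro i hi j hj hij
      obtain ⟨a, b, _, _, _, _, h1, h2, h3⟩ := key i hi j hj
      obtain ⟨a', b', _, _, _, h4, _, h5, h6⟩ := key j hj j hj
      have e1 : n + 1 - x (3, i, 0) / 2 / (n + 2) = a := by omega
      have e2 : n + 1 - x (3, j, 0) / 2 / (n + 2) = b := by
        have := h4 rfl
        omega
      simp only
      rw [e1, e2]
      exact h1 hij
  · rintro ⟨a, ha, hE⟩
    have haf : ∀ i < k, (n + 2) * a i + (n + 2) * (n + 1 - a i) = (n + 2) * (n + 1) := by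
      intro i hi
      rw [← mul_add]
      congr 1
      have := ha i hi
      omega
    refine ⟨fun u => if u.1 = 0 then 2 * ((n + 2) * a u.2.1 + a u.2.2) else
      if u.1 = 1 ∨ u.1 = 4 then 2 * (n + 1 - a u.2.2) else 2 * ((n + 2) * (n + 1 - a u.2.1)),
      ?_, ?_, ?_⟩
    · rintro ⟨c, i, j⟩ hu
      have hu' := mem_us.1 hu
      simp only [okV] at hu'
      simp only [tt]
      have e : (n + 1) * (n + 3) = (n + 2) * (n + 1) + (n + 1) := by ring
      split_ifs with h1 h2
      · have := haf i (by omega)
        have := ha j (by omega)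
        omega
      · omega
      · have : (n + 2) * (n + 1 - a i) ≤ (n + 2) * (n + 1) := Nat.mul_le_mul_left _ (by omega)
        omega
    · rintro ⟨c, i, j⟩ he
      obtain ⟨hc, hi, hj⟩ := mem_es.1 he
      dsimp only at hc hi hj
      have h1 := haf i hi
      have h2 := ha j hj
      have e : (n + 1) * (n + 3) = (n + 2) * (n + 1) + (n + 1) := by ring
      rcases hc with rfl | rfl
      · rw [yv0 _ hi hj]
        simp [tt]
        have : 2 * ((n + 2) * a i + a j) + 2 * (n + 1 - a j) + 2 * ((n + 2) * (n + 1 - a i)) =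
            2 * ((n + 1) * (n + 3)) := by omega
        exact_mod_cast this
      · rw [yv1 _ hi hj]
        simp [tt]
        have : 2 * ((n + 2) * a i + a j) + 2 * ((n + 2) * (n + 1 - a i)) + 2 * (n + 1 - a j) =
            2 * ((n + 1) * (n + 3)) := by omega
        exact_mod_cast this
    · rintro ⟨c, i, j⟩ hu
      have hu' := mem_us.1 hu
      simp only [okV] at hu'
      unfold dom
      by_cases h1 : c = 0
      · subst h1
        have hi := ha i (by omega)
        have hj := ha j (by omega)
        have q0 : 2 * ((n + 2) * a i + a j) / 2 = (n + 2) * a i + a j := by omega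
        have q1 : ((n + 2) * a i + a j) / (n + 2) = a i := by
          rw [Nat.mul_add_div (by omega), Nat.div_eq_of_lt (by omega), add_zero]
        have q2 : ((n + 2) * a i + a j) % (n + 2) = a j := by
          rw [Nat.mul_add_mod, Nat.mod_eq_of_lt (by omega)]
        simp only [if_true, decide_true, cond_true, q0, q1, q2, hi, hj, Bool.true_and]
        have : 2 * ((n + 2) * a i + a j) % 2 = 0 := by omega
        simp only [this, decide_true, Bool.true_and]
        by_cases hij : i = j
        · subst hij; simp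
        · simp only [hij, decide_false, cond_false]
          exact hE i (by omega) j (by omega) hij
      · by_cases h2 : c = 1 ∨ c = 4
        · have hj := ha j (by omega)
          have h3 : (decide (c = 1) || decide (c = 4)) = true := by
            rcases h2 with rfl | rfl <;> rfl
          simp only [h1, h2, if_false, if_true, decide_false, cond_false, h3, cond_true]
          have e1 : 2 * (n + 1 - a j) % 2 = 0 := by omega
          simp only [e1, decide_true, Bool.true_and, decide_eq_true_eq]
          omega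
        · have h3 : (decide (c = 1) || decide (c = 4)) = false := by
            simp only [Bool.or_eq_false_iff, decide_eq_false_iff_not]
            omega
          simp only [h1, h2, if_false, decide_false, cond_false, h3]
          have e1 : 2 * ((n + 2) * (n + 1 - a i)) % 2 = 0 := by omega
          have e2 : 2 * ((n + 2) * (n + 1 - a i)) / 2 % (n + 2) = 0 := by
            rw [Nat.mul_div_cancel_left _ (by norm_num), Nat.mul_mod_right]
          simp [e1, e2]

end Pool.Agent.H633R2
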