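import Mathlib

/-!
# Modular width

The four graph operations of the modular-width literature, the predicate constructible with
width at most `w`, and the modular width itself.
-/

namespace Pool.Agent.H633R2

/-- (O2) Disjoint union of two graphs. -/
def unionG {V W : Type} (G : SimpleGraph V) (H : SimpleGraph W) : SimpleGraph (V ⊕ W) where
  Adj x y := match x, y with
    | Sum.inl a, Sum.inl b => G.Adj a b
    | Sum.inr a, Sum.inr b => H.Adj a b
    | _, _ => False
  symm := ⟨by
    rintro (a | a) (b | b) h
    · exact SimpleGraph.Adj.symm (G := G) h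
    · exact h
    · exact h
    · exact SimpleGraph.Adj.symm (G := H) h⟩
  loopless := ⟨by
    rintro (a | a) h
    · exact G.loopless.irrefl a h
    · exact H.loopless.irrefl a h⟩

/-- (O3) Complete join of two graphs. -/
def joinG {V W : Type} (G : SimpleGraph V) (H : SimpleGraph W) : SimpleGraph (V ⊕ W) where
  Adj x y := match x, y with
    | Sum.inl a, Sum.inl b => G.Adj a b
    | Sum.inr a, Sum.inr b => H.Adj a b
    | _, _ => True
  symm := ⟨by
    rintro (a | a) (b | b) h
    · exact SimpleGraph.Adj.symm (G := G) h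
    · exact h
    · exact h
    · exact SimpleGraph.Adj.symm (G := H) h⟩
  loopless := ⟨by
    rintro (a | a) h
    · exact G.loopless.irrefl a h
    · exact H.loopless.irrefl a h⟩

/-- (O4) Substitution of the graphs `G i` for the vertices `i` of `H`. -/
def substG {ι : Type} (H : SimpleGraph ι) {V : ι → Type} (G : ∀ i, SimpleGraph (V i)) :
    SimpleGraph (Σ i, V i) where
  Adj x y := H.Adj x.1 y.1 ∨ ∃ h : x.1 = y.1, (G y.1).Adj (h ▸ x.2) y.2
  symm := ⟨by
    rintro ⟨i, a⟩ ⟨j, b⟩ (h | ⟨h, h'⟩)
    · exact Or.inl h.symm
    · dsimp only at h h'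
      subst h
      exact Or.inr ⟨rfl, h'.symm⟩⟩
  loopless := ⟨by
    rintro ⟨i, a⟩ (h | ⟨h, h'⟩)
    · exact H.loopless.irrefl _ h
    · exact (G i).loopless.irrefl _ h'⟩

/-- `MWLE w G`: up to isomorphism, `G` is built by the operations (O1) single vertex,
(O2) disjoint union, (O3) complete join and (O4) substitution into a graph with at most `w`
vertices. -/
inductive MWLE (w : ℕ) : {V : Type} → SimpleGraph V → Prop
  | single : MWLE w (⊥ : SimpleGraph Unit)
  | union {V W : Type} {G : SimpleGraph V} {H : SimpleGraph W} :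
      MWLE w G → MWLE w H → MWLE w (unionG G H)
  | join {V W : Type} {G : SimpleGraph V} {H : SimpleGraph W} :
      MWLE w G → MWLE w H → MWLE w (joinG G H)
  | subst {ι : Type} [Finite ι] [Nonempty ι] (hw : Nat.card ι ≤ w) (H : SimpleGraph ι)
      {V : ι → Type} (G : ∀ i, SimpleGraph (V i)) :
      (∀ i, MWLE w (G i)) → MWLE w (substG H G)
  | iso {V W : Type} {G : SimpleGraph V} {H : SimpleGraph W} :
      Nonempty (G ≃g H) → MWLE w G → MWLE w H

/-- The modular width of a graph. -/
noncomputable def modularWidth {V : Type} (G : SimpleGraph V) : ℕ := sInf {w | MWLE w G}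

end Pool.Agent.H633R2
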